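import Pool.Agent.H38.OG.Rep

set_option autoImplicit false

/-! Every countable group in the class is attached to a pair of linear orders. -/

namespace Pool.Agent.H38.OG

open Sum

section

variable {p : ℕ} [hp : Fact p.Prime] {θ : ℚ_[p]} {G : Type} [AddCommGroup G]
    [LinearOrder G] [IsOrderedAddMonoid G]

/-- the sequence of pairs -/
theorem exists_seq (hB : (gops G).BG p θ) (γ : ℕ → G) (hγ : Function.Surjective γ) :
    ∃ c : ℕ → G × G, (∀ n : ℕ, (gops G).Good p θ (fun i : Fin n => c i)) ∧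
      ∀ g, ∃ (n k : ℕ) (m : Fin n → ℤ × ℤ), 0 < k ∧
        (k : ℤ) • g = (gops G).comb (fun i : Fin n => c i) m := by
  classical
  have step : ∀ (s : ℕ × (ℕ → G × G)) (g : G), ∃ s' : ℕ × (ℕ → G × G),
      (gops G).Good p θ (fun i : Fin s.1 => s.2 i) → s.1 < s'.1 ∧
      (gops G).Good p θ (fun i : Fin s'.1 => s'.2 i) ∧ (∀ i < s.1, s'.2 i = s.2 i) ∧
      ∃ (k : ℕ) (m : Fin s'.1 → ℤ × ℤ), 0 < k ∧
        (k : ℤ) • g = (gops G).comb (fun i : Fin s'.1 => s'.2 i) m := by
    intro s g
    by_cases h : (gops G).Good p θ (fun i : Fin s.1 => s.2 i)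
    · obtain ⟨n', c', h1, h2, h3, h4⟩ := hB.2.2 _ _ h g
      have h5 : (fun i : Fin n' => (if h : i.val < n' then c' ⟨i.val, h⟩ else (0, 0))) = c' := by
        funext i
        rw [dif_pos i.2]
      refine ⟨⟨n', fun i => if h : i < n' then c' ⟨i, h⟩ else (0, 0)⟩, fun _ => ⟨h1, ?_, ?_, ?_⟩⟩
      · show (gops G).Good p θ
          (fun i : Fin n' => (if h : i.val < n' then c' ⟨i.val, h⟩ else (0, 0)))
        rw [h5]
        exact h2
      · intro i hi
        have h6 : i < n' := hi.trans h1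
        simp only [dif_pos h6]
        exact h3 ⟨i, hi⟩ ⟨i, h6⟩ rfl
      · show ∃ (k : ℕ) (m : Fin n' → ℤ × ℤ), 0 < k ∧ (k : ℤ) • g = (gops G).comb
          (fun i : Fin n' => (if h : i.val < n' then c' ⟨i.val, h⟩ else (0, 0))) m
        rw [h5]
        exact h4
    · exact ⟨s, fun h' => absurd h' h⟩
  choose st hst using step
  let F : ℕ → ℕ × (ℕ → G × G) := fun k => Nat.rec (0, fun _ => (0, 0)) (fun k s => st s (γ k)) k
  have hF : ∀ k, F (k + 1) = st (F k) (γ k) := fun k => rfl
  have hgood : ∀ k, (gops G).Good p θ (fun i : Fin (F k).1 => (F k).2 i) := by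
    intro k
    induction k with
    | zero => exact ⟨fun i => i.elim0, fun i => i.elim0⟩
    | succ k ih => rw [hF]; exact (hst _ _ ih).2.1
  have hlt : ∀ k, (F k).1 < (F (k + 1)).1 := fun k => by
    rw [hF]; exact (hst _ _ (hgood k)).1
  have hle : ∀ k, k ≤ (F k).1 := by
    intro k
    induction k with
    | zero => exact Nat.zero_le _
    | succ k ih => have := hlt k; omega
  have hmono : ∀ k l, k ≤ l → (F k).1 ≤ (F l).1 := by
    intro k l h
    induction l, h using Nat.le_induction with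
    | base => exact le_rfl
    | succ l _ ih => exact ih.trans (hlt l).le
  have hcoh : ∀ k l, k ≤ l → ∀ i < (F k).1, (F l).2 i = (F k).2 i := by
    intro k l h
    induction l, h using Nat.le_induction with
    | base => exact fun _ _ => rfl
    | succ l hkl ih =>
      intro i hi
      rw [hF, (hst _ _ (hgood l)).2.2.1 i (lt_of_lt_of_le hi (hmono k l hkl))]
      exact ih i hi
  have hc : ∀ k, ∀ i < (F k).1, (F (i + 1)).2 i = (F k).2 i := by
    intro k i hi
    rcases le_total k (i + 1) with h | h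
    · exact hcoh k (i + 1) h i hi
    · exact (hcoh (i + 1) k h i (lt_of_lt_of_le (Nat.lt_succ_self i) (hle (i + 1)))).symm
  refine ⟨fun i => (F (i + 1)).2 i, fun n => ?_, fun g => ?_⟩
  · have h1 := hgood n
    refine ⟨fun i => ?_, fun i j hij => ?_⟩
    · have h2 : i.val < (F n).1 := lt_of_lt_of_le i.2 (hle n)
      have := h1.1 ⟨i.val, h2⟩
      simp only [hc n i.val h2]
      exact this
    · have h2 : i.val < (F n).1 := lt_of_lt_of_le i.2 (hle n)
      have h3 : j.val < (F n).1 := lt_of_lt_of_le j.2 (hle n)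
      have := h1.2 ⟨i.val, h2⟩ ⟨j.val, h3⟩ (fun e => hij (Fin.ext (by simpa using e)))
      simp only [hc n i.val h2, hc n j.val h3]
      exact this
  · obtain ⟨k0, rfl⟩ := hγ g
    obtain ⟨k, m, h1, h2⟩ : ∃ (k : ℕ) (m : Fin (F (k0 + 1)).1 → ℤ × ℤ), 0 < k ∧
        (k : ℤ) • γ k0 = (gops G).comb (fun i : Fin (F (k0 + 1)).1 => (F (k0 + 1)).2 i) m :=
      (hst (F k0) (γ k0) (hgood k0)).2.2.2
    refine ⟨(F (k0 + 1)).1, k, m, h1, ?_⟩
    have h3 : (fun i : Fin (F (k0 + 1)).1 => (F (i.val + 1)).2 i.val) =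
        fun i : Fin (F (k0 + 1)).1 => (F (k0 + 1)).2 i.val := by
      funext i
      exact hc (k0 + 1) i.val i.2
    simp only [h3]
    exact h2

end

end Pool.Agent.H38.OG
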