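import Pool.Agent.H38.OG.Chn

set_option autoImplicit false

/-! Coordinates for the countable groups in the class. -/

namespace Pool.Agent.H38.OG

open Sum

/-- integral vectors as rational vectors -/
noncomputable def cst (m : Ix →₀ ℤ) : Ix →₀ ℚ := m.mapRange (fun z : ℤ => (z : ℚ)) Int.cast_zero

theorem cst_apply (m : Ix →₀ ℤ) (i : Ix) : cst m i = m i := rfl

theorem cst_neg (m : Ix →₀ ℤ) : cst (-m) = - cst m := by
  ext i
  rw [cst_apply, Finsupp.neg_apply, Finsupp.neg_apply, cst_apply]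
  push_cast
  rfl

section

variable {p : ℕ} [hp : Fact p.Prime] {θ : ℚ_[p]} {G : Type} [AddCommGroup G]
    [LinearOrder G] [IsOrderedAddMonoid G]

/-- the elements of the basis -/
def el (c : ℕ → G × G) : Ix → G
  | .inl n => (c n).1
  | .inr n => (c n).2

/-- the combinations of the basis -/
noncomputable def T (c : ℕ → G × G) : (Ix →₀ ℤ) →ₗ[ℤ] G := Finsupp.linearCombination ℤ (el c)

/-- a sequence of pairs with the orders of their classes -/
structure Seq (p : ℕ) [Fact p.Prime] (θ : ℚ_[p]) (G : Type) [AddCommGroup G] [LinearOrder G]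
    [IsOrderedAddMonoid G] (c : ℕ → G × G) (x : Pr) : Prop where
  hx : TL x
  hθ : ‖θ‖ ≤ 1
  pos : ∀ i, 0 < el c i
  inf : ∀ i j, lt x i j → Inf (el c i) (el c j)
  rr : ∀ n, (gops G).Rr p θ (c n).1 (c n).2
  dvd : ∀ s : ℕ, ¬ p ∣ s → ∀ g : G, ∃ g', (s : ℤ) • g' = g
  b1 : ∀ (n : ℕ) (k : ℕ) (m : Fin n → ℤ × ℤ) (g : G), 0 < k →
    (k : ℤ) • g = (gops G).comb (fun i : Fin n => c i) m →
      ∀ i, ‖(((m i).1 : ℤ) : ℚ_[p]) - θ * (((m i).2 : ℤ) : ℚ_[p])‖ ≤ ‖(k : ℚ_[p])‖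
  span : ∀ g, ∃ (n k : ℕ) (m : Fin n → ℤ × ℤ), 0 < k ∧
        (k : ℤ) • g = (gops G).comb (fun i : Fin n => c i) m

theorem exists_Seq (hθ : ‖θ‖ ≤ 1) (hB : (gops G).BG p θ) (γ : ℕ → G)
    (hγ : Function.Surjective γ) : ∃ (c : ℕ → G × G) (x : Pr), Seq p θ G c x := by
  classical
  obtain ⟨c, h1, h2⟩ := exists_seq hB γ hγ
  have hU : ∀ n, (gops G).UR p θ (c n).1 (c n).2 := fun n =>
    (h1 (n + 1)).1 ⟨n, Nat.lt_succ_self n⟩
  have hcmp : ∀ i j, i ≠ j → (Inf (c i).1 (c j).1 ∨ Inf (c j).1 (c i).1) ∧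
      (Inf (c i).2 (c j).2 ∨ Inf (c j).2 (c i).2) := by
    intro i j hij
    have := (h1 (i + j + 1)).2 ⟨i, by omega⟩ ⟨j, by omega⟩ (fun e => hij (by simpa using e))
    exact this
  let x : Pr := (fun a b => decide (Inf (c a).1 (c b).1), fun a b => decide (Inf (c a).2 (c b).2))
  have hx1 : ∀ a b, x.1 a b = true ↔ Inf (c a).1 (c b).1 := fun a b => by simp [x]
  have hx2 : ∀ a b, x.2 a b = true ↔ Inf (c a).2 (c b).2 := fun a b => by simp [x]
  refine ⟨c, x, ⟨⟨⟨fun a h => ?_, fun a b d h h' => ?_, fun a b h => ?_⟩,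
    ⟨fun a h => ?_, fun a b d h h' => ?_, fun a b h => ?_⟩⟩, hθ, ?_, ?_, fun n => (hU n).2.1,
    hB.1, fun n k m g hk hg i => hB.2.1 n _ (h1 n) k m g hk hg i, h2⟩⟩
  · rw [hx1] at h
    exact inf_irrefl _ h
  · rw [hx1] at h h' ⊢
    exact h.trans h'
  · rw [hx1, hx1]
    exact (hcmp a b h).1
  · rw [hx2] at h
    exact inf_irrefl _ h
  · rw [hx2] at h h' ⊢
    exact h.trans h'
  · rw [hx2, hx2]
    exact (hcmp a b h).2
  · rintro (n | n)
    · exact (hU n).1.1
    · exact (hU n).2.2.1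
  · rintro (a | a) (b | b) h
    · exact (hx1 a b).1 h
    · exact (hU a).1.2.1 _ (hU b).2.2.2.1
    · exact absurd h id
    · exact (hx2 a b).1 h

variable {c : ℕ → G × G} {x : Pr} (S : Seq p θ G c x)

include S

theorem Seq.T_top {m : Ix →₀ ℤ} {i : Ix} (hi : Top (lt x) (cst m) i) :
    ∃ s, Inf s (el c i) ∧ T c m = s + m i • el c i := by
  classical
  have hi' : i ∈ m.support := by
    rw [Finsupp.mem_support_iff]
    intro e
    apply hi.1
    rw [cst_apply, e, Int.cast_zero]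
  refine ⟨∑ j ∈ m.support.erase i, m j • el c j, ?_, ?_⟩
  · refine inf_sum _ _ (S.pos i).ne' fun j hj => ?_
    obtain ⟨h1, h2⟩ := Finset.mem_erase.1 hj
    have h3 : cst m j ≠ 0 := by
      rw [cst_apply]
      exact_mod_cast Finsupp.mem_support_iff.1 h2
    refine (S.inf j i ?_).smul _
    rcases (lin_lt S.hx).total j i h1 with h4 | h4
    · exact h4
    · exact absurd (hi.2 j h4) h3
  · rw [T, Finsupp.linearCombination_apply, Finsupp.sum, Finset.sum_erase_add _ _ hi']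

theorem Seq.T_pos {m : Ix →₀ ℤ} (hm : Pos (lt x) (cst m)) : 0 < T c m := by
  obtain ⟨i, hi, h⟩ := hm
  obtain ⟨s, h1, h2⟩ := S.T_top hi
  rw [h2]
  refine sign_pos h1 (S.pos i) ?_
  rw [cst_apply] at h
  exact_mod_cast h

theorem Seq.T_neg {m : Ix →₀ ℤ} (hm : Pos (lt x) (-cst m)) : T c m < 0 := by
  rw [← cst_neg] at hm
  have := S.T_pos hm
  rw [map_neg] at this
  exact neg_pos.1 this

theorem Seq.T_zero {m : Ix →₀ ℤ} (h : T c m = 0) : m = 0 := by
  by_contra e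
  have hm : cst m ≠ 0 := by
    intro h1
    apply e
    ext i
    have := DFunLike.congr_fun h1 i
    rw [cst_apply, Finsupp.zero_apply] at this
    exact_mod_cast this
  rcases pos_or (lin_lt S.hx) hm with h1 | h1
  · exact (S.T_pos h1).ne' h
  · exact (S.T_neg h1).ne h

omit S in
/-- the vector `v` consists of the coordinates of `g` -/
def Rel (c : ℕ → G × G) (v : Ix →₀ ℚ) (g : G) : Prop :=
  ∃ (k : ℕ) (m : Ix →₀ ℤ), 0 < k ∧ (k : ℚ) • v = cst m ∧ (k : ℤ) • g = T c m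

omit S [LinearOrder G] [IsOrderedAddMonoid G] in
theorem Rel.add {v v' : Ix →₀ ℚ} {g g' : G} (h : Rel c v g) (h' : Rel c v' g') :
    Rel c (v + v') (g + g') := by
  obtain ⟨k, m, h1, h2, h3⟩ := h
  obtain ⟨k', m', h1', h2', h3'⟩ := h'
  refine ⟨k * k', (k' : ℤ) • m + (k : ℤ) • m', Nat.mul_pos h1 h1', ?_, ?_⟩
  · ext i
    have e := DFunLike.congr_fun h2 i
    have e' := DFunLike.congr_fun h2' i
    rw [cst_apply, Finsupp.smul_apply, smul_eq_mul] at e e'
    rw [cst_apply, Finsupp.smul_apply, Finsupp.add_apply, smul_eq_mul, Finsupp.add_apply,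
      Finsupp.smul_apply, Finsupp.smul_apply, smul_eq_mul, smul_eq_mul]
    push_cast
    rw [← e, ← e']
    ring
  · rw [map_add, map_smul, map_smul, ← h3, ← h3', smul_add, smul_smul, smul_smul]
    push_cast
    rw [mul_comm (k' : ℤ) (k : ℤ)]

omit S [LinearOrder G] [IsOrderedAddMonoid G] in
theorem Rel.neg {v : Ix →₀ ℚ} {g : G} (h : Rel c v g) : Rel c (-v) (-g) := by
  obtain ⟨k, m, h1, h2, h3⟩ := h
  refine ⟨k, -m, h1, ?_, ?_⟩
  · rw [smul_neg, h2, cst_neg]
  · rw [smul_neg, h3, map_neg]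

theorem Seq.rel_pos {v : Ix →₀ ℚ} {g : G} (h : Rel c v g) : Pos (lt x) v ↔ 0 < g := by
  obtain ⟨k, m, h1, h2, h3⟩ := h
  have hk : (0 : ℚ) < k := by exact_mod_cast h1
  have hk' : (k : ℤ) ≠ 0 := by exact_mod_cast h1.ne'
  have e1 : ∀ {g' : G}, 0 < (k : ℤ) • g' → 0 < g' := by
    intro g' hg
    by_contra hcon
    have : (k : ℤ) • g' ≤ 0 := by
      rw [natCast_zsmul]
      exact nsmul_nonpos (not_lt.1 hcon) _
    exact absurd hg (not_lt.2 this)
  have e2 : ∀ {g' : G}, 0 < g' → 0 < (k : ℤ) • g' := fun hg => zsmul_pos hg (by omega)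
  rw [← pos_smul hk, h2]
  constructor
  · intro h4
    have := S.T_pos h4
    rw [← h3] at this
    exact e1 this
  · intro h4
    have h5 := e2 h4
    rw [h3] at h5
    have hm : cst m ≠ 0 := by
      intro h6
      have : m = 0 := by
        ext i
        have := DFunLike.congr_fun h6 i
        rw [cst_apply, Finsupp.zero_apply] at this
        exact_mod_cast this
      rw [this, map_zero] at h5
      exact lt_irrefl _ h5
    rcases pos_or (lin_lt S.hx) hm with h6 | h6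
    · exact h6
    · exact absurd (S.T_neg h6) (lt_asymm h5)

theorem Seq.rel_zero {v : Ix →₀ ℚ} (h : Rel c v (0 : G)) : v = 0 := by
  obtain ⟨k, m, h1, h2, h3⟩ := h
  rw [smul_zero] at h3
  have hm := S.T_zero h3.symm
  have hk : (k : ℚ) ≠ 0 := by exact_mod_cast h1.ne'
  rw [hm] at h2
  have h4 : cst 0 = 0 := by
    ext i
    rw [cst_apply]
    simp
  rw [h4] at h2
  exact (smul_eq_zero.1 h2).resolve_left hk

theorem Seq.zero_rel {g : G} (h : Rel c 0 g) : g = 0 := by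
  rcases lt_trichotomy g 0 with h1 | h1 | h1
  · exfalso
    have h2 := h.neg
    rw [neg_zero] at h2
    exact ((S.rel_pos h2).2 (neg_pos.2 h1)).ne rfl
  · exact h1
  · exact absurd rfl ((S.rel_pos h).2 h1).ne

theorem Seq.uniq {v v' : Ix →₀ ℚ} {g : G} (h : Rel c v g) (h' : Rel c v' g) : v = v' := by
  have h1 := h.add h'.neg
  rw [add_neg_cancel] at h1
  have := S.rel_zero h1
  exact add_neg_eq_zero.1 this

theorem Seq.total {g : G} : ∃ v, Rel c v g ∧ Loc p θ v := by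
  classical
  obtain ⟨n, k, m, hk, hg⟩ := S.span g
  have hb := S.b1 n k m g hk hg
  have hk0 : (k : ℚ) ≠ 0 := by exact_mod_cast hk.ne'
  have hk1 : (k : ℚ_[p]) ≠ 0 := by exact_mod_cast hk.ne'
  let M : ℕ → ℤ × ℤ := fun i => if h : i < n then m ⟨i, h⟩ else (0, 0)
  have hM : ∀ i : Fin n, M i = m i := fun i => by simp [M]
  let F : Ix → ℤ := fun i => match i with
    | .inl l => (M l).1
    | .inr l => (M l).2
  let R : Finset Ix := (Finset.range n).disjSum (Finset.range n)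
  have hR : ∀ i, F i ≠ 0 → i ∈ R := by
    rintro (l | l) h
    · refine Finset.inl_mem_disjSum.2 (Finset.mem_range.2 ?_)
      by_contra e
      apply h
      simp [F, M, e]
    · refine Finset.inr_mem_disjSum.2 (Finset.mem_range.2 ?_)
      by_contra e
      apply h
      simp [F, M, e]
  let mm : Ix →₀ ℤ := Finsupp.onFinset R F hR
  have hmm : ∀ i, mm i = F i := fun i => rfl
  have hT : T c mm = (gops G).comb (fun i : Fin n => c i) m := by
    rw [gops_comb, T, Finsupp.linearCombination_apply,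
      Finsupp.sum_of_support_subset _ Finsupp.support_onFinset_subset _ (by simp),
      Finset.sum_disjSum, Finset.sum_range, Finset.sum_range, ← Finset.sum_add_distrib]
    refine Finset.sum_congr rfl fun i _ => ?_
    rw [hmm, hmm]
    show (M i).1 • (c i).1 + (M i).2 • (c i).2 = _
    rw [hM]
  refine ⟨(k : ℚ)⁻¹ • cst mm, ⟨k, mm, hk, ?_, ?_⟩, fun l => ?_⟩
  · rw [smul_smul, mul_inv_cancel₀ hk0, one_smul]
  · rw [hT]; exact hg
  · simp only [Finsupp.smul_apply, cst_apply, hmm, smul_eq_mul]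
    show ‖(((k : ℚ)⁻¹ * ((M l).1 : ℚ) : ℚ) : ℚ_[p]) - θ * (((k : ℚ)⁻¹ * ((M l).2 : ℚ) : ℚ) :
      ℚ_[p])‖ ≤ 1
    push_cast
    have h1 : ((k : ℚ_[p]))⁻¹ * ((M l).1 : ℚ_[p]) - θ * ((k : ℚ_[p])⁻¹ * ((M l).2 : ℚ_[p])) =
        (k : ℚ_[p])⁻¹ * (((M l).1 : ℚ_[p]) - θ * ((M l).2 : ℚ_[p])) := by ring
    rw [h1, norm_mul, norm_inv]
    have h2 : ‖((M l).1 : ℚ_[p]) - θ * ((M l).2 : ℚ_[p])‖ ≤ ‖(k : ℚ_[p])‖ := by
      by_cases h : l < n
      · have := hb ⟨l, h⟩
        rw [← hM] at this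
        exact this
      · have : M l = (0, 0) := by simp [M, h]
        rw [this]
        simp
    have h3 : 0 < ‖(k : ℚ_[p])‖ := norm_pos_iff.2 hk1
    calc _ ≤ ‖(k : ℚ_[p])‖⁻¹ * ‖(k : ℚ_[p])‖ := mul_le_mul_of_nonneg_left h2 (by positivity)
      _ = 1 := inv_mul_cancel₀ h3.ne'

omit S [LinearOrder G] [IsOrderedAddMonoid G] [AddCommGroup G] in
theorem exists_den (v : Ix →₀ ℚ) : ∃ (k : ℕ) (m : Ix →₀ ℤ), 0 < k ∧ (k : ℚ) • v = cst m := by
  classical
  let k : ℕ := ∏ i ∈ v.support, (v i).den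
  have hk : 0 < k := Finset.prod_pos fun i _ => (v i).den_pos
  have key : ∀ i, ∃ z : ℤ, (k : ℚ) * v i = z := by
    intro i
    by_cases h : i ∈ v.support
    · obtain ⟨e, he⟩ : (v i).den ∣ k := Finset.dvd_prod_of_mem _ h
      refine ⟨e * (v i).num, ?_⟩
      rw [he]
      have := Rat.den_mul_eq_num (v i)
      push_cast
      rw [mul_comm ((v i).den : ℚ) (e : ℚ), mul_assoc, this]
    · refine ⟨0, ?_⟩
      rw [Finsupp.notMem_support_iff.1 h]
      simp
  choose z hz using key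
  refine ⟨k, Finsupp.onFinset v.support z ?_, hk, ?_⟩
  · intro i hi
    by_contra h
    apply hi
    have := hz i
    rw [Finsupp.notMem_support_iff.1 h, mul_zero] at this
    exact_mod_cast this.symm
  · ext i
    rw [cst_apply, Finsupp.smul_apply, smul_eq_mul]
    exact hz i

theorem Seq.surj {v : Ix →₀ ℚ} (hv : Loc p θ v) : ∃ g : G, Rel c v g := by
  classical
  obtain ⟨k, m, hk, hm⟩ := exists_den v
  obtain ⟨j, s, hs, hks⟩ := Nat.exists_eq_pow_mul_and_not_dvd hk.ne' p hp.out.ne_one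
  have hp1 : (p : ℤ) ^ j ≠ 0 := pow_ne_zero _ (by exact_mod_cast hp.out.ne_zero)
  have hknorm : ‖(k : ℚ_[p])‖ = ((p : ℝ) ^ j)⁻¹ := by
    rw [hks]
    push_cast
    rw [norm_mul, norm_pow_p, norm_coprime p hs, mul_one]
  obtain ⟨t, ht⟩ := exists_approx p S.hθ j
  -- the single terms
  have key : ∀ l : ℕ, ∃ g : G, ((p : ℤ) ^ j) • g =
      m (inl l) • (c l).1 + m (inr l) • (c l).2 := by
    intro l
    obtain ⟨g1, hg1⟩ := S.rr l j t ht
    have hnorm : ‖((m (inl l) : ℤ) : ℚ_[p]) - θ * ((m (inr l) : ℤ) : ℚ_[p])‖ ≤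
        ((p : ℝ) ^ j)⁻¹ := by
      have h1 := DFunLike.congr_fun hm (inl l)
      have h2 := DFunLike.congr_fun hm (inr l)
      rw [cst_apply, Finsupp.smul_apply, smul_eq_mul] at h1 h2
      have h3 := congrArg (fun r : ℚ => (r : ℚ_[p])) h1
      have h4 := congrArg (fun r : ℚ => (r : ℚ_[p])) h2
      push_cast at h3 h4
      rw [← h3, ← h4]
      have h5 : (k : ℚ_[p]) * ((v (inl l) : ℚ) : ℚ_[p]) - θ * ((k : ℚ_[p]) *
          ((v (inr l) : ℚ) : ℚ_[p])) = (k : ℚ_[p]) * (((v (inl l) : ℚ) : ℚ_[p]) -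
          θ * ((v (inr l) : ℚ) : ℚ_[p])) := by ring
      rw [h5, norm_mul, hknorm]
      exact mul_le_of_le_one_right (by positivity) (hv l)
    have hd : (p : ℤ) ^ j ∣ m (inl l) - t * m (inr l) := by
      apply dvd_of_norm
      push_cast
      have h6 : ((m (inl l) : ℤ) : ℚ_[p]) - t * ((m (inr l) : ℤ) : ℚ_[p]) =
          (((m (inl l) : ℤ) : ℚ_[p]) - θ * ((m (inr l) : ℤ) : ℚ_[p])) +
          (θ - t) * ((m (inr l) : ℤ) : ℚ_[p]) := by ring
      rw [h6]
      refine (Padic.nonarchimedean _ _).trans (max_le hnorm ?_)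
      rw [norm_mul]
      calc _ ≤ ((p : ℝ) ^ j)⁻¹ * 1 :=
            mul_le_mul ht (Padic.norm_int_le_one _) (norm_nonneg _) (by positivity)
        _ = _ := mul_one _
    obtain ⟨z, hz⟩ := hd
    refine ⟨m (inr l) • g1 + z • (c l).1, ?_⟩
    have h7 : ((p : ℤ) ^ j) • g1 = (c l).2 + t • (c l).1 := hg1
    have h8 : m (inl l) = (p : ℤ) ^ j * z + t * m (inr l) := by linarith
    rw [h8, smul_add, smul_smul, mul_comm _ (m (inr l)), mul_smul, h7]
    module
  choose G1 hG1 using key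
  -- a bound for the support
  obtain ⟨n, hn⟩ : ∃ n : ℕ, m.support ⊆ (Finset.range n).disjSum (Finset.range n) := by
    refine ⟨m.support.sup (fun i => Sum.elim id id i) + 1, ?_⟩
    rintro (l | l) hl
    · refine Finset.inl_mem_disjSum.2 (Finset.mem_range.2 ?_)
      have := Finset.le_sup (f := fun i : Ix => Sum.elim id id i) hl
      exact Nat.lt_succ_of_le this
    · refine Finset.inr_mem_disjSum.2 (Finset.mem_range.2 ?_)
      have := Finset.le_sup (f := fun i : Ix => Sum.elim id id i) hl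
      exact Nat.lt_succ_of_le this
  obtain ⟨g, hg⟩ := S.dvd s hs (∑ l ∈ Finset.range n, G1 l)
  refine ⟨g, k, m, hk, hm, ?_⟩
  have h9 : (k : ℤ) = (p : ℤ) ^ j * s := by
    rw [hks]
    push_cast
    rfl
  rw [h9, mul_smul, hg, Finset.smul_sum, T, Finsupp.linearCombination_apply,
    Finsupp.sum_of_support_subset _ hn _ (by simp), Finset.sum_disjSum,
    ← Finset.sum_add_distrib]
  exact Finset.sum_congr rfl fun l _ => hG1 l

/-- the coordinates -/
theorem Seq.rep : ∃ co : G → (Ix →₀ ℚ),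
    IsRep p θ x (fun a b : G => a < b) (fun a b => a + b) co := by
  choose co h1 h2 using fun g => S.total (g := g)
  refine ⟨co, fun a b => S.uniq (h1 _) ((h1 a).add (h1 b)), fun a b hab => ?_, h2, fun v hv => ?_,
    fun a b => ?_⟩
  · have h3 := (h1 a).add (h1 b).neg
    rw [hab, add_neg_cancel] at h3
    have := S.zero_rel h3
    exact add_neg_eq_zero.1 this
  · obtain ⟨g, hg⟩ := S.surj hv
    exact ⟨g, S.uniq (h1 g) hg⟩
  · have h3 := (h1 b).add (h1 a).neg
    rw [← sub_eq_add_neg, ← sub_eq_add_neg] at h3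
    rw [S.rel_pos h3, sub_pos]

end

/-- every group in the class has coordinates -/
theorem exists_rep {p : ℕ} [Fact p.Prime] {θ : ℚ_[p]} {G : Type} [AddCommGroup G]
    [LinearOrder G] [IsOrderedAddMonoid G] (hθ : ‖θ‖ ≤ 1) (hB : (gops G).BG p θ) (γ : ℕ → G)
    (hγ : Function.Surjective γ) : ∃ (x : Pr) (co : G → (Ix →₀ ℚ)), TL x ∧
      IsRep p θ x (fun a b : G => a < b) (fun a b => a + b) co := by
  obtain ⟨c, x, S⟩ := exists_Seq hθ hB γ hγ
  obtain ⟨co, h⟩ := S.rep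
  exact ⟨x, co, S.hx, h⟩

end Pool.Agent.H38.OG
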