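import Pool.Agent.H38.OG.Mea

set_option autoImplicit false

/-! Faithful completeness of the classes of ordered abelian groups. -/

namespace Pool.Agent.H38.OG

open Sum Pool.Agent.W889.VC

theorem PIso.trans' {x y z : PairStr} (h : PIso x y) (h' : PIso y z) : PIso x z := by
  obtain ⟨σ, h⟩ := h
  obtain ⟨τ, h'⟩ := h'
  refine ⟨σ.trans τ, fun m n => ?_⟩
  have h1 := h' (σ m) (σ n)
  have h2 := h m n
  exact ⟨h1.1.trans h2.1, h1.2.trans h2.2⟩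

theorem tl_iff {x : PairStr} (h : TwoLin x) : TL x :=
  ⟨⟨h.1.irrefl, h.1.trans, h.1.total⟩, ⟨h.2.irrefl, h.2.trans, h.2.total⟩⟩

variable {p : ℕ} [hp : Fact p.Prime] {θ : ℚ_[p]}

/-- the class of structures -/
def KB (p : ℕ) [Fact p.Prime] (θ : ℚ_[p]) (y : Y) : Prop := OAx y ∧ (rops y).BG p θ

theorem faithful_KB (hθ : ‖θ‖ ≤ 1) (hi : ∀ r : ℚ, (r : ℚ_[p]) ≠ θ) :
    Faithful YIso (KB p θ) := by
  intro a B hB hinv
  obtain ⟨B0, F0, h1, h2, h3, h4, h5, h6, h7⟩ := target_PL.faithful a B hB hinv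
  have hdec : ∀ {x : Pr} {y : Y} {co : ℕ → (Ix →₀ ℚ)}, TL x → YRep p θ x y co →
      PIso x (dec p θ y) := by
    intro x y co hx h
    obtain ⟨π, hπ⟩ := YRep.dec hθ hi hx h
    exact ⟨π, hπ⟩
  have step : ∀ {y z : Y}, YIso y z → KB p θ y → KB p θ z ∧ PIso (dec p θ y) (dec p θ z) := by
    rintro y z hyz ⟨k1, k2⟩
    obtain ⟨x, co, hx, h⟩ := exists_yrep hθ k1 k2
    obtain ⟨co', h'⟩ := h.map hyz
    exact ⟨⟨h'.ax hx, h'.bg hθ hi hx⟩, PIso.trans' (hdec hx h).symm (hdec hx h')⟩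
  have hstep : ∀ y z, YIso y z → y ∈ {y | KB p θ y ∧ dec p θ y ∈ B0} →
      z ∈ {y | KB p θ y ∧ dec p θ y ∈ B0} := by
    rintro y z hyz ⟨k1, k2⟩
    obtain ⟨k3, k4⟩ := step hyz k1
    exact ⟨k3, (h2 _ _ k4).1 k2⟩
  refine ⟨{y | KB p θ y ∧ dec p θ y ∈ B0}, fun y => F0 (dec p θ y), ?_,
    fun y z h => ⟨hstep y z h, hstep z y h.symm⟩, fun y hy => hy.1, h4.comp (meas_dec p θ),
    fun y hy => h5 _ hy.2, ?_, ?_⟩
  · exact (bp_ax.and (bp_bg p θ)).and ((meas_dec p θ) h1)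
  · rintro y ⟨k1, k2⟩ z ⟨k3, k4⟩
    rw [← h6 _ k2 _ k4]
    refine ⟨fun h => (step h k1).2, fun h => ?_⟩
    obtain ⟨x, co, hx, hr⟩ := exists_yrep hθ k1.1 k1.2
    obtain ⟨x', co', hx', hr'⟩ := exists_yrep hθ k3.1 k3.2
    obtain ⟨π, hπ⟩ : PIso x x' := PIso.trans' (hdec hx hr) (PIso.trans' h (hdec hx' hr').symm)
    obtain ⟨co'', hr''⟩ := hr.perm π hπ
    exact hr''.iso hr'
  · intro x hx
    obtain ⟨y0, k1, k2⟩ := h7 x hx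
    obtain ⟨y, co, hr⟩ := exists_y (p := p) hθ y0
    have hx0 := tl_iff (h3 y0 k1)
    have hd := hdec hx0 hr
    refine ⟨y, ⟨⟨hr.ax hx0, hr.bg hθ hi hx0⟩, (h2 _ _ hd).1 k1⟩, ?_⟩
    exact k2.trans ((h6 _ k1 _ ((h2 _ _ hd).1 k1)).1 hd)

end Pool.Agent.H38.OG
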