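import Pool.Agent.H38.OG.Rel
import Pool.Agent.H38.OG.Fth
import Pool.Graph.R_seed8.TH783.OV.Fin

set_option autoImplicit false

/-! Ordered abelian groups which are divisible by given primes. -/

namespace Pool.Agent.H38.OG

open Pool.Agent.W889.VC

/-- ordered abelian groups which are divisible by the elements of `D` -/
def OGD (D : Set ℕ) (y : Y) : Prop :=
  ∃ (G : Type) (_ : AddCommGroup G) (_ : LinearOrder G) (_ : IsOrderedAddMonoid G) (e : ℕ ≃ G),
    (∀ m n, y.1 m n = true ↔ e m < e n) ∧ (∀ m n, e (y.2 m n) = e m + e n) ∧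
    ∀ q ∈ D, ∀ g : G, ∃ h : G, q • h = g

theorem faithful_OGD {D : Set ℕ} (hD : ∀ q ∈ D, q.Prime) {p : ℕ} (hp : p.Prime) (hpD : p ∉ D) :
    Faithful YIso (OGD D) := by
  have : Fact p.Prime := ⟨hp⟩
  obtain ⟨θ, h1, h2⟩ := exists_irrational p
  refine (faithful_KB (p := p) h1 h2).mono fun y hy => ?_
  refine ⟨Car y, grp y hy.1, ord y hy.1, ordered y hy.1, Equiv.refl ℕ, fun _ _ => Iff.rfl,
    fun _ _ => rfl, fun q hq g => ?_⟩
  have h3 : ¬ p ∣ q := by
    intro h
    have := (Nat.prime_dvd_prime_iff_eq hp (hD q hq)).1 h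
    rw [← this] at hq
    exact hpD hq
  obtain ⟨h, hh⟩ := hy.2.1 q h3 g
  exact ⟨h, hh⟩

/-- scalars -/
theorem exists_int (s : Subring.closure (∅ : Set ℝ)) : ∃ n : ℤ, (n : ℝ) = s := by
  have h : (s : ℝ) ∈ (⊥ : Subring ℝ) := by
    rw [← Subring.closure_empty]
    exact s.2
  exact Subring.mem_bot.1 h

/-- the scalars as integers -/
noncomputable def sci : Subring.closure (∅ : Set ℝ) →+* ℤ where
  toFun s := Classical.choose (exists_int s)
  map_one' := by
    have h := Classical.choose_spec (exists_int 1)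
    have h1 : ((Classical.choose (exists_int 1) : ℤ) : ℝ) = ((1 : ℤ) : ℝ) := by
      rw [h]; simp
    exact_mod_cast h1
  map_mul' a b := by
    have h := Classical.choose_spec (exists_int (a * b))
    have ha := Classical.choose_spec (exists_int a)
    have hb := Classical.choose_spec (exists_int b)
    have h1 : ((Classical.choose (exists_int (a * b)) : ℤ) : ℝ) =
        ((Classical.choose (exists_int a) * Classical.choose (exists_int b) : ℤ) : ℝ) := by
      rw [h, Int.cast_mul, ha, hb]; rfl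
    exact_mod_cast h1
  map_zero' := by
    have h := Classical.choose_spec (exists_int 0)
    have h1 : ((Classical.choose (exists_int 0) : ℤ) : ℝ) = ((0 : ℤ) : ℝ) := by
      rw [h]; simp
    exact_mod_cast h1
  map_add' a b := by
    have h := Classical.choose_spec (exists_int (a + b))
    have ha := Classical.choose_spec (exists_int a)
    have hb := Classical.choose_spec (exists_int b)
    have h1 : ((Classical.choose (exists_int (a + b)) : ℤ) : ℝ) =
        ((Classical.choose (exists_int a) + Classical.choose (exists_int b) : ℤ) : ℝ) := by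
      rw [h, Int.cast_add, ha, hb]; rfl
    exact_mod_cast h1

theorem sci_spec (s : Subring.closure (∅ : Set ℝ)) : ((sci s : ℤ) : ℝ) = s :=
  Classical.choose_spec (exists_int s)

theorem div_all {G : Type} [AddCommGroup G] (h : ∀ q : ℕ, q.Prime → ∀ g : G, ∃ h : G, q • h = g) :
    ∀ n : ℤ, n ≠ 0 → ∀ g : G, ∃ h : G, n • h = g := by
  have key : ∀ n : ℕ, n ≠ 0 → ∀ g : G, ∃ h : G, n • h = g := by
    intro n
    induction n using Nat.recOnMul with
    | zero => exact fun h => absurd rfl h
    | one => exact fun _ g => ⟨g, one_smul _ g⟩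
    | prime q hq => exact fun _ g => h q hq g
    | mul a b ha hb =>
      intro hab g
      obtain ⟨h1, e1⟩ := ha (left_ne_zero_of_mul hab) g
      obtain ⟨h2, e2⟩ := hb (right_ne_zero_of_mul hab) h1
      exact ⟨h2, by rw [mul_smul, e2, e1]⟩
  intro n hn g
  rcases Int.natAbs_eq n with e | e
  · obtain ⟨h, hh⟩ := key n.natAbs (Int.natAbs_ne_zero.2 hn) g
    exact ⟨h, by rw [e, natCast_zsmul]; exact hh⟩
  · obtain ⟨h, hh⟩ := key n.natAbs (Int.natAbs_ne_zero.2 hn) (-g)
    exact ⟨h, by rw [e, neg_smul, natCast_zsmul, hh, neg_neg]⟩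

/-- the dichotomy for divisible groups -/
theorem vc_div (D : Set ℕ) (hD : ∀ q : ℕ, q.Prime → q ∈ D) : VCof True YIso (OGD D) := by
  intro B hB hinv hBK
  let f : Pool.Agent.TH783.OV.XT (∅ : Set ℝ) → Y := fun x => (x.1, x.2.1)
  have hfm : Measurable f := measurable_fst.prodMk (measurable_fst.comp measurable_snd)
  have hfc : Continuous f := continuous_fst.prodMk (continuous_fst.comp continuous_snd)
  have hiso : ∀ x x', Pool.Agent.TH783.OV.IsoX x x' ↔ YIso (f x) (f x') := by
    intro x x'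
    constructor
    · rintro ⟨σ, h1, h2, -⟩
      exact ⟨σ, h1, h2⟩
    · rintro ⟨σ, h1, h2⟩
      exact ⟨σ, h1, h2, fun t => absurd t.2 (Set.notMem_empty _)⟩
  have hgood : ∀ x ∈ f ⁻¹' B, Pool.Agent.TH783.OV.Good x := by
    intro x hx
    obtain ⟨G, i1, i2, i3, e, e1, e2, e3⟩ := hBK _ hx
    let i4 : Module (Subring.closure (∅ : Set ℝ)) G := Module.compHom G sci
    have hs : ∀ (s : Subring.closure (∅ : Set ℝ)) (v : G), s • v = sci s • v := fun _ _ => rfl
    refine ⟨G, i1, i2, i3, i4, e, ?_, ⟨e1, e2, fun t => absurd t.2 (Set.notMem_empty _)⟩,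
      Or.inl ?_⟩
    · intro s v h4 h5
      rw [hs]
      have h6 : (0 : ℝ) < ((sci s : ℤ) : ℝ) := by
        rw [sci_spec]
        exact_mod_cast h4
      exact zsmul_pos h5 (by exact_mod_cast h6)
    · intro s v h4
      obtain ⟨w, hw⟩ := div_all (fun q hq => e3 q (hD q hq)) (sci s) (by
        intro h5
        apply h4
        have h6 := sci_spec s
        rw [h5, Int.cast_zero] at h6
        exact Subtype.ext h6.symm) v
      exact ⟨w, hw⟩
  rcases Pool.Agent.TH783.OV.main (T := (∅ : Set ℝ)) (f ⁻¹' B) (hfm hB)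
    (fun x hx y hxy => (hinv _ _ ((hiso x y).1 hxy)).1 hx) hgood with
    ⟨g, hg⟩ | ⟨g, h1, h2, h3⟩
  · left
    refine ⟨fun n => f (g n), fun y hy => ?_⟩
    obtain ⟨n, hn⟩ := hg (y.1, y.2, fun _ n => n) hy
    exact ⟨n, (hiso _ _).1 hn⟩
  · right
    exact ⟨fun c => f (g c), fun _ => hfc.comp h1, h2, fun c d hcd => h3 c d ((hiso _ _).2 hcd)⟩

end Pool.Agent.H38.OG
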