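import Mathlib

set_option autoImplicit false

/-! Lexicographic orders on finitely supported families of rational numbers. -/

namespace Pool.Agent.H38.OG

/-- strict linear orders -/
structure Lin {ι : Type} (l : ι → ι → Prop) : Prop where
  irrefl : ∀ a, ¬ l a a
  trans : ∀ a b c, l a b → l b c → l a c
  total : ∀ a b, a ≠ b → l a b ∨ l b a

section

variable {ι : Type} {l : ι → ι → Prop}

theorem exists_max (hl : Lin l) (S : Finset ι) (hS : S.Nonempty) :
    ∃ i ∈ S, ∀ j ∈ S, j ≠ i → l j i := by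
  classical
  induction hS using Finset.Nonempty.cons_induction with
  | singleton a =>
    refine ⟨a, Finset.mem_singleton_self a, fun j hj h => ?_⟩
    exact absurd (Finset.mem_singleton.1 hj) h
  | cons a S ha hS ih =>
    obtain ⟨i, hi, h⟩ := ih
    have hai : a ≠ i := fun e => ha (e ▸ hi)
    rcases hl.total a i hai with h1 | h1
    · refine ⟨i, Finset.mem_cons_of_mem hi, fun j hj hji => ?_⟩
      rcases Finset.mem_cons.1 hj with rfl | hj
      · exact h1
      · exact h j hj hji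
    · refine ⟨a, Finset.mem_cons_self a S, fun j hj hji => ?_⟩
      rcases Finset.mem_cons.1 hj with rfl | hj
      · exact absurd rfl hji
      · by_cases e : j = i
        · rw [e]; exact h1
        · exact hl.trans _ _ _ (h j hj e) h1

/-- the leading index -/
def Top (l : ι → ι → Prop) (v : ι →₀ ℚ) (i : ι) : Prop := v i ≠ 0 ∧ ∀ j, l i j → v j = 0

/-- the support is below `i` -/
def Low (l : ι → ι → Prop) (v : ι →₀ ℚ) (i : ι) : Prop := ∀ j, v j ≠ 0 → l j i

/-- positive vectors -/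
def Pos (l : ι → ι → Prop) (v : ι →₀ ℚ) : Prop := ∃ i, Top l v i ∧ 0 < v i

theorem exists_top (hl : Lin l) {v : ι →₀ ℚ} (hv : v ≠ 0) : ∃ i, Top l v i := by
  have : v.support.Nonempty := by
    rw [Finset.nonempty_iff_ne_empty, Ne, Finsupp.support_eq_empty]
    exact hv
  obtain ⟨i, hi, h⟩ := exists_max hl _ this
  refine ⟨i, Finsupp.mem_support_iff.1 hi, fun j hij => ?_⟩
  by_contra hj
  by_cases e : j = i
  · rw [e] at hij
    exact hl.irrefl _ hij
  · exact hl.irrefl _ (hl.trans _ _ _ hij (h j (Finsupp.mem_support_iff.2 hj) e))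

theorem Top.uniq (hl : Lin l) {v : ι →₀ ℚ} {i j : ι} (h : Top l v i) (h' : Top l v j) : i = j := by
  by_contra e
  rcases hl.total i j e with h1 | h1
  · exact h'.1 (h.2 _ h1)
  · exact h.1 (h'.2 _ h1)

theorem Top.neg {v : ι →₀ ℚ} {i : ι} (h : Top l v i) : Top l (-v) i := by
  refine ⟨?_, fun j hj => ?_⟩
  · rw [Finsupp.neg_apply, neg_ne_zero]
    exact h.1
  · rw [Finsupp.neg_apply, h.2 j hj, neg_zero]

theorem Top.add (hl : Lin l) {v w : ι →₀ ℚ} {i : ι} (h : Top l v i) (h' : Low l w i) :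
    Top l (v + w) i ∧ (v + w) i = v i := by
  have h1 : ∀ j, l i j ∨ i = j → w j = 0 := by
    intro j hj
    by_contra e
    have := h' j e
    rcases hj with hj | rfl
    · exact hl.irrefl _ (hl.trans _ _ _ hj this)
    · exact hl.irrefl _ this
  have h2 : (v + w) i = v i := by
    rw [Finsupp.add_apply, h1 i (Or.inr rfl), add_zero]
  refine ⟨⟨by rw [h2]; exact h.1, fun j hj => ?_⟩, h2⟩
  rw [Finsupp.add_apply, h.2 j hj, h1 j (Or.inl hj), add_zero]

theorem Low.smul {v : ι →₀ ℚ} {i : ι} (h : Low l v i) (q : ℚ) : Low l (q • v) i := by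
  intro j hj
  refine h j fun e => hj ?_
  rw [Finsupp.smul_apply, e, smul_zero]

theorem Pos.not_neg (hl : Lin l) {v : ι →₀ ℚ} (h : Pos l v) : ¬ Pos l (-v) := by
  rintro ⟨j, h1, h2⟩
  obtain ⟨i, h3, h4⟩ := h
  have := Top.uniq hl h3.neg h1
  subst this
  rw [Finsupp.neg_apply] at h2
  linarith

theorem Pos.ne {v : ι →₀ ℚ} (h : Pos l v) : v ≠ 0 := by
  rintro rfl
  obtain ⟨i, h, -⟩ := h
  exact h.1 rfl

theorem pos_or (hl : Lin l) {v : ι →₀ ℚ} (hv : v ≠ 0) : Pos l v ∨ Pos l (-v) := by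
  obtain ⟨i, hi⟩ := exists_top hl hv
  rcases lt_or_gt_of_ne hi.1 with h | h
  · refine Or.inr ⟨i, hi.neg, ?_⟩
    rw [Finsupp.neg_apply]
    linarith
  · exact Or.inl ⟨i, hi, h⟩

/-- trichotomy of the leading index of two vectors -/
theorem top_low (hl : Lin l) {v : ι →₀ ℚ} {i j : ι} (h : Top l v i) (hij : l i j) : Low l v j := by
  intro k hk
  by_cases e : k = i
  · rw [e]; exact hij
  · rcases hl.total k i e with h1 | h1
    · exact hl.trans _ _ _ h1 hij
    · exact absurd (h.2 k h1) hk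

theorem low_top (hl : Lin l) {v : ι →₀ ℚ} {i j : ι} (h : Top l v i) (hij : Low l v j) : l i j :=
  hij i h.1

theorem Pos.add (hl : Lin l) {v w : ι →₀ ℚ} (h : Pos l v) (h' : Pos l w) : Pos l (v + w) := by
  obtain ⟨i, h1, h2⟩ := h
  obtain ⟨j, h3, h4⟩ := h'
  by_cases e : i = j
  · subst e
    refine ⟨i, ⟨?_, fun k hk => ?_⟩, ?_⟩
    · rw [Finsupp.add_apply]
      exact ne_of_gt (by linarith)
    · rw [Finsupp.add_apply, h1.2 k hk, h3.2 k hk, add_zero]
    · rw [Finsupp.add_apply]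
      linarith
  · rcases hl.total i j e with h5 | h5
    · obtain ⟨h6, h7⟩ := h3.add hl (top_low hl h1 h5)
      rw [add_comm]
      exact ⟨j, h6, by rw [h7]; exact h4⟩
    · obtain ⟨h6, h7⟩ := h1.add hl (top_low hl h3 h5)
      exact ⟨i, h6, by rw [h7]; exact h2⟩

theorem pos_smul {v : ι →₀ ℚ} {q : ℚ} (hq : 0 < q) : Pos l (q • v) ↔ Pos l v := by
  have key : ∀ (w : ι →₀ ℚ) (r : ℚ), 0 < r → Pos l w → Pos l (r • w) := by
    rintro w r hr ⟨i, h1, h2⟩
    refine ⟨i, ⟨?_, fun j hj => ?_⟩, ?_⟩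
    · rw [Finsupp.smul_apply, smul_eq_mul]
      exact mul_ne_zero hr.ne' h1.1
    · rw [Finsupp.smul_apply, h1.2 j hj, smul_zero]
    · rw [Finsupp.smul_apply, smul_eq_mul]
      exact mul_pos hr h2
  refine ⟨fun h => ?_, key v q hq⟩
  have := key _ q⁻¹ (inv_pos.2 hq) h
  rwa [smul_smul, inv_mul_cancel₀ hq.ne', one_smul] at this

end

end Pool.Agent.H38.OG
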