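import Pool.Agent.H38.OG.Str
import Pool.Graph.R_seed8.W889.VC.HF

set_option autoImplicit false

/-! Measurability of the class, and the decoding. -/

namespace Pool.Agent.H38.OG

open Sum Pool.Agent.W889.VC

/-- measurable function -/
def MF (f : Y → ℕ) : Prop := ∀ k, BP (fun y => f y = k)

theorem MF.const (a : ℕ) : MF (fun _ => a) := fun _ => BP.const _

theorem MF.eq {f g : Y → ℕ} (hf : MF f) (hg : MF g) : BP (fun y => f y = g y) :=
  (BP.ex (ι := ℕ) fun k => (hf k).and (hg k)).congr fun y =>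
    ⟨fun ⟨_, h1, h2⟩ => h1.trans h2.symm, fun h => ⟨_, rfl, h.symm⟩⟩

theorem MF.sub {F : Y → ℕ → ℕ} (hF : ∀ a, MF (fun y => F y a)) {f : Y → ℕ} (hf : MF f) :
    MF (fun y => F y (f y)) := fun k =>
  (BP.ex (ι := ℕ) fun a => (hf a).and (hF a k)).congr fun y =>
    ⟨fun ⟨a, h1, h2⟩ => by rw [← h2]; show F y (f y) = F y a; rw [h1], fun h => ⟨_, rfl, h⟩⟩

theorem BP.sub {P : Y → ℕ → Prop} (hP : ∀ a, BP (fun y => P y a)) {f : Y → ℕ} (hf : MF f) :
    BP (fun y => P y (f y)) :=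
  (BP.ex (ι := ℕ) fun a => (hf a).and (hP a)).congr fun y =>
    ⟨fun ⟨a, h1, h2⟩ => by show P y (f y); rw [h1]; exact h2, fun h => ⟨_, rfl, h⟩⟩

theorem mf_add0 (a b : ℕ) : MF (fun y => y.2 a b) := by
  intro k
  have h : Measurable (fun y : Y => y.2 a b) :=
    (measurable_pi_apply b).comp ((measurable_pi_apply a).comp measurable_snd)
  exact h (measurableSet_singleton k)

theorem mf_add {f g : Y → ℕ} (hf : MF f) (hg : MF g) : MF (fun y => y.2 (f y) (g y)) :=
  MF.sub (F := fun y b => y.2 (f y) b) (fun b => MF.sub (F := fun y a => y.2 a b)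
    (fun a => mf_add0 a b) hf) hg

theorem bp_lt {f g : Y → ℕ} (hf : MF f) (hg : MF g) :
    BP (fun y : Y => y.1 (f y) (g y) = true) := by
  refine BP.sub (P := fun (y : Y) b => y.1 (f y) b = true) (fun b => BP.sub
    (P := fun (y : Y) a => y.1 a b = true) (fun a => ?_) hf) hg
  have h : Measurable (fun y : Y => y.1 a b) :=
    (measurable_pi_apply b).comp ((measurable_pi_apply a).comp measurable_fst)
  exact h (measurableSet_singleton true)

theorem mf_sInf {P : Y → ℕ → Prop} (hP : ∀ n, BP (fun y => P y n)) :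
    MF (fun y => sInf {n | P y n}) := by
  intro k
  have h : BP (fun y => (P y k ∧ ∀ j, j < k → ¬ P y j) ∨ (k = 0 ∧ ∀ j, ¬ P y j)) :=
    ((hP k).and (BP.all fun j => (BP.const _).imp (hP j).not)).or
      ((BP.const _).and (BP.all fun j => (hP j).not))
  refine h.congr fun y => ⟨?_, ?_⟩
  · rintro (⟨h1, h2⟩ | ⟨h1, h2⟩)
    · refine le_antisymm (Nat.sInf_le h1) ?_
      by_contra hlt
      exact h2 _ (not_le.1 hlt) (Nat.sInf_mem (s := {n | P y n}) ⟨k, h1⟩)
    · have : {n | P y n} = ∅ := Set.eq_empty_iff_forall_notMem.2 h2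
      show sInf {n | P y n} = k
      rw [this, Nat.sInf_empty, h1]
  · intro h1
    replace h1 : sInf {n | P y n} = k := h1
    by_cases hne : ∃ n, P y n
    · left
      have h2 := Nat.sInf_mem (s := {n | P y n}) hne
      rw [h1] at h2
      refine ⟨h2, fun j hj hPj => ?_⟩
      have := Nat.sInf_le (s := {n | P y n}) hPj
      omega
    · right
      push Not at hne
      have : {n | P y n} = ∅ := Set.eq_empty_iff_forall_notMem.2 hne
      rw [this, Nat.sInf_empty] at h1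
      exact ⟨h1.symm, hne⟩

theorem mf_zr : MF zr :=
  mf_sInf (P := fun y z => y.2 z z = z) fun n => (mf_add0 n n).eq (MF.const n)

theorem mf_ng {f : Y → ℕ} (hf : MF f) : MF (fun y => ng y (f y)) :=
  MF.sub (F := ng) (fun a => mf_sInf (P := fun y n => y.2 n a = zr y) fun n =>
    (mf_add0 n a).eq mf_zr) hf

theorem mf_ns (k : ℕ) {f : Y → ℕ} (hf : MF f) : MF (fun y => ns y k (f y)) := by
  induction k with
  | zero => exact mf_zr
  | succ k ih => exact mf_add ih hf

theorem mf_zs (k : ℤ) {f : Y → ℕ} (hf : MF f) : MF (fun y => zs y k (f y)) := by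
  rcases k with k | k
  · exact mf_ns k hf
  · exact mf_ng (mf_ns (k + 1) hf)

theorem bp_inf {f g : Y → ℕ} (hf : MF f) (hg : MF g) :
    BP (fun y => (rops y).Inf (f y) (g y)) :=
  ((bp_lt mf_zr hg).and (BP.all fun n : ℤ => bp_lt (mf_zs n hf) hg)).or
    ((bp_lt hg mf_zr).and (BP.all fun n : ℤ => bp_lt hg (mf_zs n hf)))

theorem bp_inf' (a b : ℕ) : BP (fun y => (rops y).Inf a b) := bp_inf (MF.const a) (MF.const b)

theorem bp_fl (p : ℕ) (h : ℕ) : BP (fun y => (rops y).FL p h) :=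
  ((MF.const h).eq mf_zr).not.and (BP.all fun g : ℕ => (bp_inf' h g).not.imp
    (BP.ex fun g' : ℕ => bp_inf (mf_add (MF.const g) (mf_zs _ (MF.const g'))) (MF.const h)))

theorem bp_inA (p : ℕ) (a : ℕ) : BP (fun y => (rops y).InA p a) :=
  BP.all fun h : ℕ => (bp_fl p h).imp (bp_inf' a h)

theorem bp_unt (p : ℕ) (a : ℕ) : BP (fun y => (rops y).Unt p a) :=
  (bp_lt mf_zr (MF.const a)).and ((bp_inA p a).and (BP.all fun g : ℕ => (bp_inA p g).imp
    ((bp_inf' a g).not.imp (BP.ex fun s : ℕ => (BP.const _).and (BP.ex fun m : ℤ =>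
      bp_inf (mf_add (mf_zs (s : ℤ) (MF.const g)) (mf_zs m (MF.const a))) (MF.const a))))))

variable (p : ℕ) [hp : Fact p.Prime] (θ : ℚ_[p])

theorem bp_rr (a h : ℕ) : BP (fun y => (rops y).Rr p θ a h) :=
  BP.all fun k : ℕ => BP.all fun t : ℤ => (BP.const _).imp (BP.ex fun g : ℕ =>
    (mf_zs ((p : ℤ) ^ k) (MF.const g)).eq (mf_add (MF.const h) (mf_zs t (MF.const a))))

theorem bp_ur (a h : ℕ) : BP (fun y => (rops y).UR p θ a h) :=
  (bp_unt p a).and ((bp_rr p θ a h).and ((bp_lt mf_zr (MF.const h)).and ((bp_fl p h).and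
    (BP.all fun a' : ℕ => BP.all fun h' : ℕ => (bp_unt p a').imp ((bp_inf' a a').not.imp
      ((bp_inf' a' a).not.imp ((bp_rr p θ a' h').imp (bp_inf' h' h).not)))))))

theorem bp_good {n : ℕ} (c : Fin n → ℕ × ℕ) : BP (fun y => (rops y).Good p θ c) :=
  (BP.all fun i : Fin n => bp_ur p θ _ _).and (BP.all fun i : Fin n => BP.all fun j : Fin n =>
    (BP.const _).imp (((bp_inf' _ _).or (bp_inf' _ _)).and ((bp_inf' _ _).or (bp_inf' _ _))))

theorem mf_sum {n : ℕ} (f : Fin n → Y → ℕ) (hf : ∀ i, MF (f i)) :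
    MF (fun y => (rops y).sum fun i => f i y) := by
  induction n with
  | zero => exact mf_zr
  | succ n ih => exact mf_add (hf 0) (ih (fun i => f i.succ) fun i => hf _)

theorem mf_comb {n : ℕ} (c : Fin n → ℕ × ℕ) (m : Fin n → ℤ × ℤ) :
    MF (fun y => (rops y).comb c m) :=
  mf_sum (fun i y => y.2 (zs y (m i).1 (c i).1) (zs y (m i).2 (c i).2)) fun i =>
    mf_add (mf_zs _ (MF.const _)) (mf_zs _ (MF.const _))

theorem bp_bg : BP (fun y => (rops y).BG p θ) := by
  refine BP.and ?_ (BP.and ?_ ?_)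
  · exact BP.all fun s : ℕ => (BP.const _).imp (BP.all fun g : ℕ => BP.ex fun g' : ℕ =>
      (mf_zs (s : ℤ) (MF.const g')).eq (MF.const g))
  · exact BP.all fun n : ℕ => BP.all fun c : Fin n → ℕ × ℕ => (bp_good p θ c).imp
      (BP.all fun k : ℕ => BP.all fun m : Fin n → ℤ × ℤ => BP.all fun g : ℕ =>
        (BP.const _).imp (((mf_zs (k : ℤ) (MF.const g)).eq (mf_comb c m)).imp
          (BP.all fun i : Fin n => BP.const _)))
  · exact BP.all fun n : ℕ => BP.all fun c : Fin n → ℕ × ℕ => (bp_good p θ c).imp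
      (BP.all fun g : ℕ => BP.ex fun n' : ℕ => BP.ex fun c' : Fin n' → ℕ × ℕ =>
        (BP.const _).and ((bp_good p θ c').and ((BP.all fun i : Fin n => BP.all fun j : Fin n' =>
          (BP.const _).imp (BP.const _)).and (BP.ex fun k : ℕ => BP.ex fun m : Fin n' → ℤ × ℤ =>
            (BP.const _).and ((mf_zs (k : ℤ) (MF.const g)).eq (mf_comb c' m))))))

theorem bp_ax : BP OAx := by
  have h : BP (fun y : Y => (∀ a b c, y.2 (y.2 a b) c = y.2 a (y.2 b c)) ∧
      (∀ a b, y.2 a b = y.2 b a) ∧ (∀ a, y.2 (zr y) a = a) ∧ (∀ a, y.2 (ng y a) a = zr y) ∧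
      ((∀ a, ¬ y.1 a a = true) ∧ (∀ a b c, y.1 a b = true → y.1 b c = true → y.1 a c = true) ∧
        ∀ a b, a ≠ b → y.1 a b = true ∨ y.1 b a = true) ∧
      ∀ a b c, y.1 a b = true → y.1 (y.2 a c) (y.2 b c) = true) := by
    have L : ∀ a b : ℕ, BP (fun y : Y => y.1 a b = true) := fun a b =>
      bp_lt (MF.const a) (MF.const b)
    refine BP.and ?_ (BP.and ?_ (BP.and ?_ (BP.and ?_ (BP.and (BP.and ?_ (BP.and ?_ ?_)) ?_))))
    · exact BP.all fun a => BP.all fun b => BP.all fun c =>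
        (mf_add (mf_add0 a b) (MF.const c)).eq (mf_add (MF.const a) (mf_add0 b c))
    · exact BP.all fun a => BP.all fun b => (mf_add0 a b).eq (mf_add0 b a)
    · exact BP.all fun a => (mf_add mf_zr (MF.const a)).eq (MF.const a)
    · exact BP.all fun a => (mf_add (mf_ng (MF.const a)) (MF.const a)).eq mf_zr
    · exact BP.all fun a => (L a a).not
    · exact BP.all fun a => BP.all fun b => BP.all fun c => (L a b).imp ((L b c).imp (L a c))
    · exact BP.all fun a => BP.all fun b => (BP.const _).imp ((L a b).or (L b a))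
    · exact BP.all fun a => BP.all fun b => BP.all fun c => (L a b).imp
        (bp_lt (mf_add0 a c) (mf_add0 b c))
  exact h.congr fun y => ⟨fun ⟨h1, h2, h3, h4, ⟨h5, h6, h7⟩, h8⟩ => ⟨h1, h2, h3, h4, ⟨h5, h6, h7⟩,
    h8⟩, fun ⟨h1, h2, h3, h4, h5, h6⟩ => ⟨h1, h2, h3, h4, ⟨h5.irrefl, h5.trans, h5.total⟩, h6⟩⟩

/-! ### decoding -/

/-- units with partners -/
def UA (y : Y) (a : ℕ) : Prop := ∃ h, (rops y).UR p θ a h

/-- the least unit of its class -/
def LR (y : Y) (a : ℕ) : Prop :=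
  UA p θ y a ∧ ∀ a', a' < a → UA p θ y a' → (rops y).Inf a a' ∨ (rops y).Inf a' a

open Classical in
/-- the element number `k` -/
noncomputable def Rk (y : Y) (k a : ℕ) : Prop := LR p θ y a ∧ Nat.count (LR p θ y) a = k

open Classical in
/-- decoding -/
noncomputable def dec (y : Y) : Pr :=
  (fun k l => decide (∃ a b, Rk p θ y k a ∧ Rk p θ y l b ∧ (rops y).Inf a b),
   fun k l => decide (∃ a b h h', Rk p θ y k a ∧ Rk p θ y l b ∧ (rops y).UR p θ a h ∧
     (rops y).UR p θ b h' ∧ (rops y).Inf h h'))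

theorem bp_ua (a : ℕ) : BP (fun y => UA p θ y a) := BP.ex fun h => bp_ur p θ a h

theorem bp_lr (a : ℕ) : BP (fun y => LR p θ y a) :=
  (bp_ua p θ a).and (BP.all fun a' : ℕ => (BP.const _).imp ((bp_ua p θ a').imp
    ((bp_inf' a a').or (bp_inf' a' a))))

open Classical in
theorem bp_count (a k : ℕ) : BP (fun y => Nat.count (LR p θ y) a = k) := by
  induction a generalizing k with
  | zero => exact (BP.const (0 = k)).congr fun y => by rw [Nat.count_zero]
  | succ a ih =>
    have h : BP (fun y => (LR p θ y a ∧ ∃ l, l + 1 = k ∧ Nat.count (LR p θ y) a = l) ∨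
        (¬ LR p θ y a ∧ Nat.count (LR p θ y) a = k)) :=
      ((bp_lr p θ a).and (BP.ex fun l => (BP.const _).and (ih l))).or ((bp_lr p θ a).not.and (ih k))
    refine h.congr fun y => ?_
    rw [Nat.count_succ]
    by_cases e : LR p θ y a
    · rw [if_pos e]
      constructor
      · rintro (⟨_, l, h1, h2⟩ | ⟨h1, _⟩)
        · omega
        · exact absurd e h1
      · intro h1
        exact Or.inl ⟨e, _, h1, rfl⟩
    · rw [if_neg e]
      constructor
      · rintro (⟨h1, _⟩ | ⟨_, h1⟩)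
        · exact absurd h1 e
        · exact h1
      · intro h1
        exact Or.inr ⟨e, h1⟩

theorem bp_rk (k a : ℕ) : BP (fun y => Rk p θ y k a) := (bp_lr p θ a).and (bp_count p θ a k)

open Classical in
theorem meas_bool {f : Y → Prop} (hf : BP f) : Measurable (fun y => decide (f y)) := by
  refine measurable_to_bool ?_
  have : (fun y => decide (f y)) ⁻¹' {true} = {y | f y} := by
    ext y
    simp
  rw [this]
  exact hf

theorem meas_dec : Measurable (dec p θ) := by
  refine Measurable.prodMk ?_ ?_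
  · refine measurable_pi_iff.2 fun k => measurable_pi_iff.2 fun l => meas_bool ?_
    exact BP.ex fun a => BP.ex fun b => (bp_rk p θ k a).and ((bp_rk p θ l b).and (bp_inf' a b))
  · refine measurable_pi_iff.2 fun k => measurable_pi_iff.2 fun l => meas_bool ?_
    exact BP.ex fun a => BP.ex fun b => BP.ex fun h => BP.ex fun h' => (bp_rk p θ k a).and
      ((bp_rk p θ l b).and ((bp_ur p θ a h).and ((bp_ur p θ b h').and (bp_inf' h h'))))

variable {p θ}

/-- the decoding of a group with coordinates -/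
theorem YRep.dec (hθ : ‖θ‖ ≤ 1) (hi : ∀ r : ℚ, (r : ℚ_[p]) ≠ θ) {x : Pr} (hx : TL x) {y : Y}
    {co : ℕ → (Ix →₀ ℚ)} (h : YRep p θ x y co) : ∃ π : Equiv.Perm ℕ, ∀ m n,
      (dec p θ y).1 (π m) (π n) = x.1 m n ∧ (dec p θ y).2 (π m) (π n) = x.2 m n := by
  classical
  have ha := h.ax hx
  let _ := grp y ha
  let _ := ord y ha
  have _ := ordered y ha
  have C := h.ctx hθ hi hx ha
  have hl := lin_lt hx
  have hur : ∀ a h : ℕ, (rops y).UR p θ a h ↔ (∀ m, co a (inr m) = 0) ∧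
    (∀ n, co h (inl n) = 0 ∧ co h (inr n) = co a (inl n)) ∧
    ∃ n, Top (lt x) (co a) (inl n) ∧ 0 < co a (inl n) ∧
      ‖((co a (inl n) : ℚ) : ℚ_[p])‖ = 1 ∧ Top (lt x) (co h) (inr n) := fun a h => C.ur
  have hinf : ∀ a b : ℕ, (rops y).Inf a b ↔ ∃ i, Top (lt x) (co b) i ∧ Low (lt x) (co a) i :=
    fun a b => C.inf
  have inf_top : ∀ {a b : ℕ} {i j : Ix}, Top (lt x) (co a) i → Top (lt x) (co b) j →
      ((rops y).Inf a b ↔ lt x i j) := by
    intro a b i j h1 h2
    rw [hinf]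
    constructor
    · rintro ⟨k, h3, h4⟩
      have := Top.uniq hl h2 h3
      subst this
      exact h4 _ h1.1
    · intro h3
      exact ⟨j, h2, top_low hl h1 h3⟩
  have hne : ∀ n, ∃ a, UA p θ y a ∧ Top (lt x) (co a) (inl n) := by
    intro n
    obtain ⟨a, h1⟩ := h.ex _ (C.loc_e n)
    obtain ⟨b, h2⟩ := h.ex _ (C.loc_f n)
    have h3 : Top (lt x) (co a) (inl n) := C.top_single h1
    refine ⟨a, ⟨b, (hur a b).2 ⟨fun m => ?_, fun k => ⟨?_, ?_⟩, n, h3, ?_, ?_,
      C.top_single h2⟩⟩, h3⟩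
    · rw [h1, Finsupp.single_apply, if_neg (by simp)]
    · rw [h2, Finsupp.single_apply, if_neg (by simp)]
    · rw [h1, h2, Finsupp.single_apply, Finsupp.single_apply]
      by_cases e' : n = k
      · rw [if_pos (by rw [e']), if_pos (by rw [e'])]
      · rw [if_neg (fun h => e' (Sum.inr.inj h)), if_neg (fun h => e' (Sum.inl.inj h))]
    · rw [h1, Finsupp.single_eq_same]; exact one_pos
    · rw [h1, Finsupp.single_eq_same]; simp
  have htop : ∀ a, UA p θ y a → ∃ n, Top (lt x) (co a) (inl n) := by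
    rintro a ⟨b, hb⟩
    obtain ⟨-, -, n, hn, -⟩ := (hur a b).1 hb
    exact ⟨n, hn⟩
  -- the least units
  let A : ℕ → ℕ := fun n => sInf {a | UA p θ y a ∧ Top (lt x) (co a) (inl n)}
  have hA : ∀ n, UA p θ y (A n) ∧ Top (lt x) (co (A n)) (inl n) := fun n => by
    obtain ⟨a, ha⟩ := hne n
    exact Nat.sInf_mem (s := {a | UA p θ y a ∧ Top (lt x) (co a) (inl n)}) ⟨a, ha⟩
  have hAle : ∀ n a, UA p θ y a → Top (lt x) (co a) (inl n) → A n ≤ a := fun n a h1 h2 =>
    Nat.sInf_le ⟨h1, h2⟩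
  have hcmp : ∀ {a b : ℕ} {i j : Ix}, Top (lt x) (co a) i → Top (lt x) (co b) j →
      (((rops y).Inf a b ∨ (rops y).Inf b a) ↔ i ≠ j) := by
    intro a b i j h1 h2
    rw [inf_top h1 h2, inf_top h2 h1]
    constructor
    · rintro (h3 | h3) e
      · rw [e] at h3; exact hl.irrefl _ h3
      · rw [e] at h3; exact hl.irrefl _ h3
    · exact hl.total i j
  have hLR : ∀ n, LR p θ y (A n) := by
    intro n
    refine ⟨(hA n).1, fun a' h1 h2 => ?_⟩
    obtain ⟨n', hn'⟩ := htop a' h2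
    refine (hcmp (hA n).2 hn').2 fun e => ?_
    rw [← e] at hn'
    have := hAle n a' h2 hn'
    omega
  have hLR' : ∀ a, LR p θ y a → ∃ n, a = A n := by
    rintro a ⟨h1, h2⟩
    obtain ⟨n, hn⟩ := htop a h1
    refine ⟨n, ?_⟩
    by_contra e
    have h3 := hAle n a h1 hn
    have h4 := h2 (A n) (by omega) (hA n).1
    exact (hcmp hn (hA n).2).1 h4 rfl
  have hAinj : Function.Injective A := by
    intro m n hmn
    have h1 := (hA m).2
    rw [hmn] at h1
    exact Sum.inl.inj (Top.uniq hl h1 (hA n).2)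
  have hinfi : (Set.ofPred (LR p θ y)).Infinite :=
    (Set.infinite_range_of_injective hAinj).mono (by rintro _ ⟨n, rfl⟩; exact hLR n)
  let π0 : ℕ → ℕ := fun n => Nat.count (LR p θ y) (A n)
  have hπinj : Function.Injective π0 := fun m n hmn =>
    hAinj (Nat.count_injective (hLR m) (hLR n) hmn)
  have hπsurj : Function.Surjective π0 := by
    intro k
    obtain ⟨n, hn⟩ := hLR' _ (Nat.nth_mem_of_infinite hinfi k)
    refine ⟨n, ?_⟩
    show Nat.count (LR p θ y) (A n) = k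
    rw [← hn]
    exact Nat.count_nth_of_infinite hinfi k
  have hRk : ∀ n a, Rk p θ y (π0 n) a ↔ a = A n := by
    intro n a
    constructor
    · rintro ⟨h1, h2⟩
      exact Nat.count_injective h1 (hLR n) h2
    · rintro rfl
      exact ⟨hLR n, rfl⟩
  refine ⟨Equiv.ofBijective π0 ⟨hπinj, hπsurj⟩, fun m n => ⟨?_, ?_⟩⟩
  · rw [Bool.eq_iff_iff]
    show decide (∃ a b, Rk p θ y (π0 m) a ∧ Rk p θ y (π0 n) b ∧ (rops y).Inf a b) = true ↔ _
    rw [decide_eq_true_iff]
    constructor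
    · rintro ⟨a, b, h1, h2, h3⟩
      rw [(hRk m a).1 h1, (hRk n b).1 h2, inf_top (hA m).2 (hA n).2] at h3
      exact h3
    · intro h1
      exact ⟨A m, A n, (hRk m _).2 rfl, (hRk n _).2 rfl, (inf_top (hA m).2 (hA n).2).2 h1⟩
  · rw [Bool.eq_iff_iff]
    show decide (∃ a b h h', Rk p θ y (π0 m) a ∧ Rk p θ y (π0 n) b ∧ (rops y).UR p θ a h ∧
     (rops y).UR p θ b h' ∧ (rops y).Inf h h') = true ↔ _
    rw [decide_eq_true_iff]
    have hpart : ∀ n h, (rops y).UR p θ (A n) h → Top (lt x) (co h) (inr n) := by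
      intro n h hh
      obtain ⟨-, -, n', h1, -, -, h2⟩ := (hur _ _).1 hh
      have := Sum.inl.inj (Top.uniq hl h1 (hA n).2)
      subst this
      exact h2
    constructor
    · rintro ⟨a, b, h, h', h1, h2, h3, h4, h5⟩
      rw [(hRk m a).1 h1] at h3
      rw [(hRk n b).1 h2] at h4
      exact (inf_top (hpart m h h3) (hpart n h' h4)).1 h5
    · intro h1
      obtain ⟨h, hh⟩ := (hA m).1
      obtain ⟨h', hh'⟩ := (hA n).1
      exact ⟨A m, A n, h, h', (hRk m _).2 rfl, (hRk n _).2 rfl, hh, hh',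
        (inf_top (hpart m h hh) (hpart n h' hh')).2 h1⟩

end Pool.Agent.H38.OG
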