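import Mathlib

set_option autoImplicit false

/-! Definitions for ordered abelian groups, and elementary facts on the relation of being
infinitely smaller. -/

namespace Pool.Agent.H38.OG

/-- order, addition, zero, integer multiples -/
structure Ops (G : Type) where
  lt : G → G → Prop
  add : G → G → G
  zero : G
  zs : ℤ → G → G

namespace Ops

variable {G : Type} (O : Ops G)

/-- `a` is infinitely smaller than `b` -/
def Inf (a b : G) : Prop :=
  (O.lt O.zero b ∧ ∀ n : ℤ, O.lt (O.zs n a) b) ∨ (O.lt b O.zero ∧ ∀ n : ℤ, O.lt b (O.zs n a))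

/-- the archimedean component of `h` is `p`-divisible -/
def FL (p : ℕ) (h : G) : Prop :=
  h ≠ O.zero ∧ ∀ g, ¬ O.Inf h g → ∃ g', O.Inf (O.add g (O.zs (-(p : ℤ)) g')) h

/-- `a` is in the lower part -/
def InA (p : ℕ) (a : G) : Prop := ∀ h, O.FL p h → O.Inf a h

/-- `a` is positive, in the lower part, and generates its component -/
def Unt (p : ℕ) (a : G) : Prop :=
  O.lt O.zero a ∧ O.InA p a ∧ ∀ g, O.InA p g → ¬ O.Inf a g →
    ∃ s : ℕ, ¬ p ∣ s ∧ ∃ m : ℤ, O.Inf (O.add (O.zs (s : ℤ) g) (O.zs m a)) a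

/-- `h` is the partner of `a` -/
def Rr (p : ℕ) [Fact p.Prime] (θ : ℚ_[p]) (a h : G) : Prop :=
  ∀ (k : ℕ) (t : ℤ), ‖θ - (t : ℚ_[p])‖ ≤ ((p : ℝ) ^ k)⁻¹ →
    ∃ g, O.zs ((p : ℤ) ^ k) g = O.add h (O.zs t a)

/-- `a` is a unit, and its partner is in the least possible class -/
def UR (p : ℕ) [Fact p.Prime] (θ : ℚ_[p]) (a h : G) : Prop :=
  O.Unt p a ∧ O.Rr p θ a h ∧ O.lt O.zero h ∧ O.FL p h ∧
    ∀ a' h', O.Unt p a' → ¬ O.Inf a a' → ¬ O.Inf a' a → O.Rr p θ a' h' → ¬ O.Inf h' h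

/-- good pieces -/
def Good (p : ℕ) [Fact p.Prime] (θ : ℚ_[p]) {n : ℕ} (c : Fin n → G × G) : Prop :=
  (∀ i, O.UR p θ (c i).1 (c i).2) ∧ ∀ i j, i ≠ j →
    (O.Inf (c i).1 (c j).1 ∨ O.Inf (c j).1 (c i).1) ∧
    (O.Inf (c i).2 (c j).2 ∨ O.Inf (c j).2 (c i).2)

/-- sums -/
def sum : {n : ℕ} → (Fin n → G) → G
  | 0, _ => O.zero
  | _ + 1, f => O.add (f 0) (sum fun i => f i.succ)

/-- integral combinations -/
def comb {n : ℕ} (c : Fin n → G × G) (m : Fin n → ℤ × ℤ) : G :=
  O.sum fun i => O.add (O.zs (m i).1 (c i).1) (O.zs (m i).2 (c i).2)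

/-- the class of groups -/
def BG (p : ℕ) [Fact p.Prime] (θ : ℚ_[p]) : Prop :=
  (∀ s : ℕ, ¬ p ∣ s → ∀ g, ∃ g', O.zs (s : ℤ) g' = g) ∧
  (∀ (n : ℕ) (c : Fin n → G × G), O.Good p θ c → ∀ (k : ℕ) (m : Fin n → ℤ × ℤ) (g : G), 0 < k →
    O.zs (k : ℤ) g = O.comb c m →
      ∀ i, ‖(((m i).1 : ℤ) : ℚ_[p]) - θ * (((m i).2 : ℤ) : ℚ_[p])‖ ≤ ‖(k : ℚ_[p])‖) ∧
  ∀ (n : ℕ) (c : Fin n → G × G), O.Good p θ c → ∀ g, ∃ (n' : ℕ) (c' : Fin n' → G × G), n < n' ∧
    O.Good p θ c' ∧ (∀ (i : Fin n) (j : Fin n'), i.val = j.val → c' j = c i) ∧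
    ∃ (k : ℕ) (m : Fin n' → ℤ × ℤ), 0 < k ∧ O.zs (k : ℤ) g = O.comb c' m

end Ops

section

variable (G : Type) [AddCommGroup G] [LinearOrder G] [IsOrderedAddMonoid G]

/-- the operations of an ordered group -/
@[reducible] def gops : Ops G := ⟨fun a b => a < b, fun a b => a + b, 0, fun n a => n • a⟩

variable {G}

/-- infinitely smaller -/
abbrev Inf (a b : G) : Prop := (gops G).Inf a b

theorem inf_iff (a b : G) : Inf a b ↔ ∀ n : ℤ, |n • a| < |b| := by
  constructor
  · rintro (⟨h1, h2⟩ | ⟨h1, h2⟩) n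
    · simp only at h1 h2
      rw [abs_of_pos h1, abs_lt]
      have := h2 (-n)
      rw [neg_smul] at this
      exact ⟨neg_lt.1 this, h2 n⟩
    · simp only at h1 h2
      rw [abs_of_neg h1, abs_lt, neg_neg]
      have := h2 (-n)
      rw [neg_smul] at this
      exact ⟨h2 n, lt_neg.1 this⟩
  · intro h
    have h0 := h 0
    rw [zero_smul, abs_zero, abs_pos] at h0
    rcases lt_or_gt_of_ne h0 with h1 | h1
    · refine Or.inr ⟨h1, fun n => ?_⟩
      have := h n
      rw [abs_of_neg h1, abs_lt, neg_neg] at this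
      exact this.1
    · refine Or.inl ⟨h1, fun n => ?_⟩
      have := h n
      rw [abs_of_pos h1, abs_lt] at this
      exact this.2

theorem inf_irrefl (a : G) : ¬ Inf a a := fun h => by
  have := (inf_iff a a).1 h 1
  rw [one_smul] at this
  exact lt_irrefl _ this

theorem Inf.trans {a b c : G} (h : Inf a b) (h' : Inf b c) : Inf a c := by
  rw [inf_iff] at *
  intro n
  have := h' 1
  rw [one_smul] at this
  exact (h n).trans this

theorem Inf.asymm {a b : G} (h : Inf a b) (h' : Inf b a) : False := inf_irrefl a (h.trans h')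

theorem Inf.ne {a b : G} (h : Inf a b) : b ≠ 0 := by
  rintro rfl
  have := (inf_iff a 0).1 h 0
  rw [abs_zero] at this
  exact absurd this (not_lt.2 (abs_nonneg _))

theorem inf_zero {b : G} (h : b ≠ 0) : Inf 0 b := by
  rw [inf_iff]
  intro n
  rw [smul_zero, abs_zero, abs_pos]
  exact h

theorem Inf.add {a b c : G} (h : Inf a c) (h' : Inf b c) : Inf (a + b) c := by
  rw [inf_iff] at *
  intro n
  have h1 : ∀ d : G, |(2 * n) • d| = |n • d| + |n • d| := by
    intro d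
    rw [mul_smul, two_smul, ← two_nsmul, ← two_nsmul, abs_nsmul]
  have h2 := h (2 * n)
  have h3 := h' (2 * n)
  rw [h1] at h2 h3
  rw [smul_add]
  refine lt_of_le_of_lt (abs_add_le _ _) ?_
  rcases le_total |n • a| |n • b| with h4 | h4
  · exact lt_of_le_of_lt (add_le_add h4 le_rfl) h3
  · exact lt_of_le_of_lt (add_le_add le_rfl h4) h2

theorem Inf.smul {a c : G} (h : Inf a c) (m : ℤ) : Inf (m • a) c := by
  rw [inf_iff] at *
  intro n
  rw [← mul_smul]
  exact h _

theorem inf_sum {ι : Type} (S : Finset ι) (f : ι → G) {c : G} (hc : c ≠ 0)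
    (h : ∀ i ∈ S, Inf (f i) c) : Inf (∑ i ∈ S, f i) c := by
  classical
  induction S using Finset.induction_on with
  | empty => rw [Finset.sum_empty]; exact inf_zero hc
  | insert a S ha ih =>
    rw [Finset.sum_insert ha]
    exact (h a (Finset.mem_insert_self _ _)).add
      (ih fun i hi => h i (Finset.mem_insert_of_mem hi))

theorem sign_pos {s c : G} (h : Inf s c) (hc : 0 < c) {m : ℤ} (hm : 0 < m) : 0 < s + m • c := by
  have h1 := (inf_iff s c).1 h 1
  rw [one_smul, abs_of_pos hc, abs_lt] at h1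
  have h2 : c ≤ m • c := by
    have : (1 : ℤ) • c ≤ m • c := zsmul_le_zsmul_left hc.le (by omega)
    rwa [one_smul] at this
  have h3 : 0 < s + c := by
    have := h1.1
    rwa [neg_lt_iff_pos_add] at this
  exact lt_of_lt_of_le h3 (add_le_add le_rfl h2)

theorem sign_neg {s c : G} (h : Inf s c) (hc : 0 < c) {m : ℤ} (hm : m < 0) : s + m • c < 0 := by
  have h1 : Inf (-s) c := by
    have := h.smul (-1)
    rwa [neg_one_smul] at this
  have h2 := sign_pos h1 hc (m := -m) (by omega)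
  rw [neg_smul] at h2
  have : -s + -(m • c) = -(s + m • c) := by abel
  rw [this] at h2
  exact neg_pos.1 h2

theorem gops_sum {n : ℕ} (f : Fin n → G) : (gops G).sum f = ∑ i, f i := by
  induction n with
  | zero => simp [Ops.sum]
  | succ n ih =>
    rw [Fin.sum_univ_succ]
    show f 0 + (gops G).sum _ = _
    rw [ih]

theorem gops_comb {n : ℕ} (c : Fin n → G × G) (m : Fin n → ℤ × ℤ) :
    (gops G).comb c m = ∑ i, ((m i).1 • (c i).1 + (m i).2 • (c i).2) := gops_sum _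

end

end Pool.Agent.H38.OG
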