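import Mathlib

set_option autoImplicit false

/-! Some facts on the `p`-adic numbers. -/

namespace Pool.Agent.H38.OG

variable (p : ℕ) [hp : Fact p.Prime]

theorem norm_pow_p (k : ℕ) : ‖((p : ℚ_[p]) ^ k)‖ = ((p : ℝ) ^ k)⁻¹ := by
  rw [norm_pow, Padic.norm_p, inv_pow]

/-- there are irrational `p`-adic integers -/
theorem exists_irrational : ∃ θ : ℚ_[p], ‖θ‖ ≤ 1 ∧ ∀ r : ℚ, (r : ℚ_[p]) ≠ θ := by
  have hp2 : 2 ≤ p := hp.out.two_le
  let F : Polynomial ℤ_[p] := Polynomial.X ^ 2 - Polynomial.C (1 + (p : ℤ_[p]) ^ 4)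
  have h1 : Polynomial.aeval (1 : ℤ_[p]) F = -(p : ℤ_[p]) ^ 4 := by
    simp [F]
  have h2 : Polynomial.aeval (1 : ℤ_[p]) F.derivative = 2 := by
    have : F.derivative = Polynomial.C 2 * Polynomial.X := by
      simp only [F, Polynomial.derivative_sub, Polynomial.derivative_X_pow,
        Polynomial.derivative_C, sub_zero]
      norm_num
    rw [this]
    simp
  have h3 : ‖Polynomial.aeval (1 : ℤ_[p]) F‖ < ‖Polynomial.aeval (1 : ℤ_[p]) F.derivative‖ ^ 2 := by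
    rw [h1, h2, norm_neg, norm_pow, PadicInt.norm_p]
    have h4 : ((p : ℝ)⁻¹) ^ 4 ≤ (2⁻¹ : ℝ) ^ 4 := by
      refine pow_le_pow_left₀ (by positivity) ?_ 4
      refine inv_anti₀ (by norm_num) ?_
      exact_mod_cast hp2
    have h5 : (2 : ℝ)⁻¹ ≤ ‖(2 : ℤ_[p])‖ := by
      by_cases e : p = 2
      · subst e
        have := PadicInt.norm_p (p := 2)
        norm_num at this ⊢
        rw [this]
      · have : ‖((2 : ℕ) : ℚ_[p])‖ = 1 := by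
          rw [Padic.norm_natCast_eq_one_iff]
          exact (Nat.coprime_primes hp.out Nat.prime_two).2 e
        have h6 : ‖(2 : ℤ_[p])‖ = 1 := by
          rw [PadicInt.norm_def]
          exact_mod_cast this
        rw [h6]
        norm_num
    have h6 : ((2 : ℝ)⁻¹) ^ 2 ≤ ‖(2 : ℤ_[p])‖ ^ 2 := pow_le_pow_left₀ (by norm_num) h5 2
    have h7 : ((2 : ℝ)⁻¹) ^ 4 < ((2 : ℝ)⁻¹) ^ 2 := by norm_num
    linarith
  obtain ⟨z, hz, -⟩ := hensels_lemma h3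
  have hz' : z ^ 2 = 1 + (p : ℤ_[p]) ^ 4 := by
    have : z ^ 2 - (1 + (p : ℤ_[p]) ^ 4) = 0 := by
      simpa [F] using hz
    exact sub_eq_zero.1 this
  refine ⟨(z : ℚ_[p]), z.2, fun r hr => ?_⟩
  have h8 : (r : ℚ_[p]) ^ 2 = 1 + (p : ℚ_[p]) ^ 4 := by
    rw [hr, ← PadicInt.coe_pow, hz']
    push_cast
    rfl
  have h9 : r ^ 2 = 1 + (p : ℚ) ^ 4 := by
    exact_mod_cast h8
  -- `1 + p ^ 4` is not a square
  have h10 : IsSquare ((1 + p ^ 4 : ℕ) : ℚ) := ⟨r, by push_cast; rw [← h9]; ring⟩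
  rw [Rat.isSquare_natCast_iff] at h10
  obtain ⟨s, hs⟩ := h10
  have h11 : p ^ 2 < s := by
    by_contra h
    have := Nat.mul_le_mul (not_lt.1 h) (not_lt.1 h)
    have h12 : p ^ 2 * p ^ 2 = p ^ 4 := by ring
    omega
  have h13 := Nat.mul_le_mul h11 h11
  have h14 : (p ^ 2 + 1) * (p ^ 2 + 1) = p ^ 4 + 2 * p ^ 2 + 1 := by ring
  have h15 : 0 < p ^ 2 := by positivity
  simp only [Nat.succ_eq_add_one] at h13
  omega

theorem exists_approx {θ : ℚ_[p]} (hθ : ‖θ‖ ≤ 1) (k : ℕ) :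
    ∃ t : ℤ, ‖θ - (t : ℚ_[p])‖ ≤ ((p : ℝ) ^ k)⁻¹ := by
  let x : ℤ_[p] := ⟨θ, hθ⟩
  refine ⟨(x.appr k : ℤ), ?_⟩
  have h := PadicInt.appr_spec k x
  rw [← PadicInt.norm_le_pow_iff_mem_span_pow] at h
  rw [PadicInt.norm_def] at h
  push_cast at h
  rw [zpow_neg, zpow_natCast] at h
  exact_mod_cast h

theorem den_of_norm {r : ℚ} (h : ‖(r : ℚ_[p])‖ ≤ 1) : ¬ p ∣ r.den := by
  have h1 := PadicInt.isUnit_den (p := p) r h
  rw [PadicInt.isUnit_iff, PadicInt.norm_def] at h1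
  have h2 : ‖((r.den : ℕ) : ℚ_[p])‖ = 1 := by
    exact_mod_cast h1
  rw [Padic.norm_natCast_eq_one_iff] at h2
  intro h3
  have := Nat.Coprime.eq_one_of_dvd h2 h3
  exact hp.out.one_lt.ne' this

theorem exists_rat (z : ℚ_[p]) : ∃ r : ℚ, ‖(r : ℚ_[p]) - z‖ ≤ 1 := by
  obtain ⟨r, hr⟩ := Padic.rat_dense p z one_pos
  exact ⟨r, by rw [norm_sub_rev]; exact hr.le⟩

theorem norm_coprime {s : ℕ} (hs : ¬ p ∣ s) : ‖(s : ℚ_[p])‖ = 1 := by
  rw [Padic.norm_natCast_eq_one_iff]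
  exact (Nat.Prime.coprime_iff_not_dvd hp.out).2 hs

theorem norm_rat_int (m : ℤ) : ‖((m : ℚ) : ℚ_[p])‖ ≤ 1 := by
  have := Padic.norm_int_le_one (p := p) m
  exact_mod_cast this

/-- `p ^ j` divides `m` if the norm is small -/
theorem dvd_of_norm {m : ℤ} {j : ℕ} (h : ‖(m : ℚ_[p])‖ ≤ ((p : ℝ) ^ j)⁻¹) : (p : ℤ) ^ j ∣ m := by
  rw [← Padic.norm_int_le_pow_iff_dvd (p := p), zpow_neg, zpow_natCast]
  exact h

theorem eq_zero_of_small {z : ℚ_[p]} (h : ∀ k : ℕ, ‖z‖ ≤ ((p : ℝ) ^ k)⁻¹) : z = 0 := by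
  have h1 : 1 < (p : ℝ) := by exact_mod_cast hp.out.one_lt
  by_contra h2
  have h3 : 0 < ‖z‖ := norm_pos_iff.2 h2
  obtain ⟨k, hk⟩ := exists_pow_lt_of_lt_one h3 (inv_lt_one_of_one_lt₀ h1)
  have := h k
  rw [inv_pow] at hk
  linarith

theorem norm_sub_le_max (x y : ℚ_[p]) : ‖x - y‖ ≤ max ‖x‖ ‖y‖ := by
  rw [sub_eq_add_neg, ← norm_neg y]
  exact Padic.nonarchimedean _ _

end Pool.Agent.H38.OG
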