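import Pool.Agent.H38.OG.Str
import Pool.Graph.R_seed8.W889.VC.HF

set_option autoImplicit false

/-! The dichotomy for structures with an order and an operation follows from the dichotomy for
relational structures. -/

namespace Pool.Agent.H38.OG

open Pool.Agent.W889.VC

/-- arities -/
def ar : ℕ → ℕ
  | 0 => 2
  | _ + 1 => 3

/-- coding -/
def cup (y : Y) : Str ar := fun i => match i with
  | 0 => fun v : Fin 2 → ℕ => y.1 (v 0) (v 1)
  | _ + 1 => fun v : Fin 3 → ℕ => decide (y.2 (v 0) (v 1) = v 2)

/-- decoding -/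
noncomputable def cdn (z : Str ar) : Y :=
  (fun m n => z 0 ![m, n], fun m n => sInf {k | z 1 ![m, n, k] = true})

theorem cdn_cup (y : Y) : cdn (cup y) = y := by
  refine Prod.ext ?_ ?_
  · funext m n
    rfl
  · funext m n
    show sInf {k | decide (y.2 m n = k) = true} = y.2 m n
    have : {k | decide (y.2 m n = k) = true} = {y.2 m n} := by
      ext k
      simp [eq_comm]
    rw [this, csInf_singleton]

theorem cup_iso {y z : Y} : YIso y z ↔ Iso (cup y) (cup z) := by
  constructor
  · rintro ⟨σ, h1, h2⟩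
    refine ⟨σ, fun i => ?_⟩
    rcases i with _ | i
    · exact fun v => h1 _ _
    · intro (v : Fin 3 → ℕ)
      show decide (z.2 (σ (v 0)) (σ (v 1)) = σ (v 2)) = decide (y.2 (v 0) (v 1) = v 2)
      rw [h2]
      simp
  · rintro ⟨σ, h⟩
    refine ⟨σ, fun m n => h 0 ![m, n], fun m n => ?_⟩
    have h1 := h 1 ![m, n, y.2 m n]
    have h2 : decide (z.2 (σ m) (σ n) = σ (y.2 m n)) = decide (y.2 m n = y.2 m n) := h1
    simpa using h2

theorem cup_inv {z z' : Str ar} (h : Iso z z') (hz : cup (cdn z) = z) : cup (cdn z') = z' := by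
  obtain ⟨σ, h⟩ := h
  let y : Y := cdn z
  let y' : Y := (fun m n => y.1 (σ.symm m) (σ.symm n), fun m n => σ (y.2 (σ.symm m) (σ.symm n)))
  have h1 : z' = cup y' := by
    have h2 : ∀ i w, z' i w = cup y i (⇑σ.symm ∘ w) := by
      intro i w
      have h2 := h i (⇑σ.symm ∘ w)
      have h3 : ⇑σ ∘ (⇑σ.symm ∘ w) = w := by
        funext j
        simp
      rw [h3, ← hz] at h2
      exact h2
    funext i
    rcases i with _ | i
    · funext w
      exact h2 0 w
    · funext (w : Fin 3 → ℕ)
      refine (h2 (i + 1) w).trans ?_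
      show decide (y.2 (σ.symm (w 0)) (σ.symm (w 1)) = σ.symm (w 2)) =
        decide (σ (y.2 (σ.symm (w 0)) (σ.symm (w 1))) = w 2)
      congr 1
      rw [Equiv.eq_symm_apply]
  rw [h1, cdn_cup]

theorem bp_sInf {X : Type} [MeasurableSpace X] {P : X → ℕ → Prop}
    (hP : ∀ n, BP (fun y => P y n)) (k : ℕ) : BP (fun y => sInf {n | P y n} = k) := by
  have h : BP (fun y => (P y k ∧ ∀ j, j < k → ¬ P y j) ∨ (k = 0 ∧ ∀ j, ¬ P y j)) :=
    ((hP k).and (BP.all fun j => (BP.const _).imp (hP j).not)).or
      ((BP.const _).and (BP.all fun j => (hP j).not))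
  refine h.congr fun y => ⟨?_, ?_⟩
  · rintro (⟨h1, h2⟩ | ⟨h1, h2⟩)
    · refine le_antisymm (Nat.sInf_le h1) ?_
      by_contra hlt
      exact h2 _ (not_le.1 hlt) (Nat.sInf_mem (s := {n | P y n}) ⟨k, h1⟩)
    · have : {n | P y n} = ∅ := Set.eq_empty_iff_forall_notMem.2 h2
      show sInf {n | P y n} = k
      rw [this, Nat.sInf_empty, h1]
  · intro h1
    replace h1 : sInf {n | P y n} = k := h1
    by_cases hne : ∃ n, P y n
    · left
      have h2 := Nat.sInf_mem (s := {n | P y n}) hne
      rw [h1] at h2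
      refine ⟨h2, fun j hj hPj => ?_⟩
      have := Nat.sInf_le (s := {n | P y n}) hPj
      omega
    · right
      push Not at hne
      have : {n | P y n} = ∅ := Set.eq_empty_iff_forall_notMem.2 hne
      rw [this, Nat.sInf_empty] at h1
      exact ⟨h1.symm, hne⟩

theorem meas_app (i : ℕ) (v : Fin (ar i) → ℕ) : Measurable (fun z : Str ar => z i v) :=
  (measurable_pi_apply v).comp (measurable_pi_apply i)

theorem meas_cdn : Measurable cdn := by
  refine Measurable.prodMk ?_ ?_
  · exact measurable_pi_iff.2 fun m => measurable_pi_iff.2 fun n => meas_app 0 ![m, n]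
  · refine measurable_pi_iff.2 fun m => measurable_pi_iff.2 fun n => measurable_to_countable'
      fun k => ?_
    exact bp_sInf (X := Str ar) (P := fun z k => z 1 ![m, n, k] = true)
      (fun k => (meas_app 1 ![m, n, k]) (measurableSet_singleton true)) k

theorem bp_cup : BP (fun z : Str ar => cup (cdn z) = z) := by
  have h : BP (fun z : Str ar => (∀ v : Fin 2 → ℕ, (cdn z).1 (v 0) (v 1) = z 0 v) ∧
      ∀ (i : ℕ) (v : Fin 3 → ℕ), decide ((cdn z).2 (v 0) (v 1) = v 2) = z (i + 1) v) := by
    refine BP.and (BP.all fun v => ?_) (BP.all fun i => BP.all fun v => ?_)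
    · have h1 : Measurable (fun z : Str ar => (cdn z).1 (v 0) (v 1)) :=
        (measurable_pi_apply _).comp ((measurable_pi_apply _).comp (measurable_fst.comp meas_cdn))
      exact measurableSet_eq_fun h1 (meas_app 0 v)
    · have h1 : Measurable (fun z : Str ar => (cdn z).2 (v 0) (v 1)) :=
        (measurable_pi_apply _).comp ((measurable_pi_apply _).comp (measurable_snd.comp meas_cdn))
      have h2 : Measurable (fun n : ℕ => decide (n = v 2)) := measurable_of_countable _
      exact measurableSet_eq_fun (h2.comp h1) (meas_app (i + 1) v)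
  refine h.congr fun z => ⟨fun ⟨h1, h2⟩ => ?_, fun e => ⟨fun v => ?_, fun i v => ?_⟩⟩
  · show cup (cdn z) = z
    funext i v
    rcases i with _ | i
    · exact h1 v
    · exact h2 i v
  · exact congrFun (congrFun e 0) v
  · exact congrFun (congrFun e (i + 1)) v

/-- transfer of the dichotomy -/
theorem vc_up (h : VCof True (Iso (a := ar)) (fun _ => True)) (K : Y → Prop) :
    VCof True YIso K := by
  intro B hB hinv _
  rcases h {z | cup (cdn z) = z ∧ cdn z ∈ B} (MeasurableSet.inter bp_cup (meas_cdn hB)) (by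
    have key : ∀ z z' : Str ar, Iso z z' → cup (cdn z) = z ∧ cdn z ∈ B →
        cup (cdn z') = z' ∧ cdn z' ∈ B := by
      rintro z z' hz ⟨h1, h2⟩
      have h3 := cup_inv hz h1
      refine ⟨h3, (hinv _ _ ?_).1 h2⟩
      rw [cup_iso, h1, h3]
      exact hz
    exact fun z z' hz => ⟨key z z' hz, key z' z hz.symm⟩) (fun _ _ => trivial) with
    ⟨f, hf⟩ | ⟨g, h1, h2, h3⟩
  · left
    refine ⟨fun n => cdn (f n), fun y hy => ?_⟩
    obtain ⟨n, hn⟩ := hf (cup y) ⟨by rw [cdn_cup], by rw [cdn_cup]; exact hy⟩
    refine ⟨n, ?_⟩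
    have h4 : cup (cdn (f n)) = f n := cup_inv hn.symm (by rw [cdn_cup])
    show YIso (cdn (f n)) y
    rw [cup_iso, h4]
    exact hn
  · right
    have hg := h1 trivial
    have hgc : ∀ i v, Continuous fun c => g c i v := fun i v =>
      (continuous_apply v).comp ((continuous_apply i).comp hg)
    refine ⟨fun c => cdn (g c), fun _ => ?_, fun c => (h2 c).2, fun c d hcd => h3 c d ?_⟩
    · refine Continuous.prodMk ?_ ?_
      · exact continuous_pi fun m => continuous_pi fun n => hgc 0 ![m, n]
      · refine continuous_pi fun m => continuous_pi fun n => ?_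
        rw [continuous_iff_continuousAt]
        intro c0
        have hval : ∀ c k, g c 1 ![m, n, k] = true ↔ (cdn (g c)).2 m n = k := by
          intro c k
          have h4 := congrFun (congrFun (h2 c).1 1) ![m, n, k]
          have h5 : decide ((cdn (g c)).2 m n = k) = g c 1 ![m, n, k] := h4
          rw [← h5, decide_eq_true_iff]
        have h6 : ∀ᶠ c in nhds c0, g c 1 ![m, n, (cdn (g c0)).2 m n] = true := by
          have h7 := ((hgc 1 ![m, n, (cdn (g c0)).2 m n]).tendsto c0)
          rw [(hval c0 _).2 rfl] at h7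
          have h8 := h7.eventually (show ∀ᶠ b in nhds true, b = true from
            (isOpen_discrete ({true} : Set Bool)).mem_nhds rfl)
          exact h8
        have h9 : ∀ᶠ c in nhds c0, (cdn (g c)).2 m n = (cdn (g c0)).2 m n := by
          filter_upwards [h6] with c hc
          exact (hval c _).1 hc
        exact ContinuousAt.congr continuousAt_const (h9.mono fun c hc => hc.symm)
    · rw [cup_iso, (h2 c).1, (h2 d).1] at hcd
      exact hcd

end Pool.Agent.H38.OG
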