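import Pool.Agent.H38.OG.Ops
import Pool.Agent.H38.OG.Lex
import Pool.Agent.H38.OG.Pad

set_option autoImplicit false

/-! The groups attached to pairs of linear orders: the meaning of the definitions. -/

namespace Pool.Agent.H38.OG

open Sum

/-- indices -/
abbrev Ix : Type := ℕ ⊕ ℕ

/-- pairs of binary relations -/
abbrev Pr : Type := (ℕ → ℕ → Bool) × (ℕ → ℕ → Bool)

/-- the sum of the two orders -/
def lt (x : Pr) : Ix → Ix → Prop
  | .inl a, .inl b => x.1 a b = true
  | .inl _, .inr _ => True
  | .inr _, .inl _ => False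
  | .inr a, .inr b => x.2 a b = true

/-- pairs of linear orders -/
structure TL (x : Pr) : Prop where
  fst : Lin (fun a b => x.1 a b = true)
  snd : Lin (fun a b => x.2 a b = true)

theorem lin_lt {x : Pr} (hx : TL x) : Lin (lt x) := by
  refine ⟨?_, ?_, ?_⟩
  · rintro (a | a) h
    · exact hx.fst.irrefl a h
    · exact hx.snd.irrefl a h
  · rintro (a | a) (b | b) (c | c) h h' <;> simp only [lt] at h h' ⊢
    · exact hx.fst.trans _ _ _ h h'
    · exact hx.snd.trans _ _ _ h h'
  · rintro (a | a) (b | b) h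
    · exact hx.fst.total a b fun e => h (by rw [e])
    · exact Or.inl trivial
    · exact Or.inr trivial
    · exact hx.snd.total a b fun e => h (by rw [e])

/-- the local condition -/
def Loc (p : ℕ) [Fact p.Prime] (θ : ℚ_[p]) (v : Ix →₀ ℚ) : Prop :=
  ∀ n, ‖((v (inl n) : ℚ) : ℚ_[p]) - θ * ((v (inr n) : ℚ) : ℚ_[p])‖ ≤ 1

/-- coordinates -/
structure IsRep (p : ℕ) [Fact p.Prime] (θ : ℚ_[p]) (x : Pr) {G : Type} (l : G → G → Prop)
    (ad : G → G → G) (co : G → (Ix →₀ ℚ)) : Prop where
  add : ∀ a b, co (ad a b) = co a + co b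
  inj : Function.Injective co
  mem : ∀ a, Loc p θ (co a)
  ex : ∀ v, Loc p θ v → ∃ a, co a = v
  pos : ∀ a b, l a b ↔ Pos (lt x) (co b - co a)

theorem exists_int_mul {c : ℚ} (hc : c ≠ 0) (d : ℚ) : ∃ n : ℤ, d < n * c := by
  rcases lt_or_gt_of_ne hc with h | h
  · obtain ⟨n, hn⟩ := exists_int_lt (d / c)
    refine ⟨n, ?_⟩
    rwa [lt_div_iff_of_neg h] at hn
  · obtain ⟨n, hn⟩ := exists_int_gt (d / c)
    refine ⟨n, ?_⟩
    rwa [div_lt_iff₀ h] at hn

/-- the situation: a group with coordinates -/
structure Ctx (p : ℕ) [Fact p.Prime] (θ : ℚ_[p]) (x : Pr) (G : Type) [AddCommGroup G]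
    [LinearOrder G] [IsOrderedAddMonoid G] (co : G → (Ix →₀ ℚ)) : Prop where
  hθ : ‖θ‖ ≤ 1
  hi : ∀ r : ℚ, (r : ℚ_[p]) ≠ θ
  hx : TL x
  h : IsRep p θ x (fun a b : G => a < b) (fun a b => a + b) co

section

variable {p : ℕ} [hp : Fact p.Prime] {θ : ℚ_[p]} {x : Pr} {G : Type} [AddCommGroup G]
    [LinearOrder G] [IsOrderedAddMonoid G] {co : G → (Ix →₀ ℚ)} (C : Ctx p θ x G co)

include C

theorem Ctx.l : Lin (lt x) := lin_lt C.hx

theorem Ctx.zero : co 0 = 0 := by
  have := C.h.add 0 0
  simp only [add_zero] at this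
  exact left_eq_add.1 this

/-- the coordinates as a homomorphism -/
def Ctx.hom : G →+ (Ix →₀ ℚ) := ⟨⟨co, C.zero⟩, C.h.add⟩

theorem Ctx.neg (a : G) : co (-a) = - co a := C.hom.map_neg a

theorem Ctx.zsmul (n : ℤ) (a : G) : co (n • a) = (n : ℚ) • co a := by
  rw [Int.cast_smul_eq_zsmul]
  exact C.hom.map_zsmul n a

theorem Ctx.add (a b : G) : co (a + b) = co a + co b := C.h.add a b

theorem Ctx.sum {τ : Type} (S : Finset τ) (f : τ → G) : co (∑ i ∈ S, f i) = ∑ i ∈ S, co (f i) :=
  map_sum C.hom f S

theorem Ctx.eq_zero {a : G} : co a = 0 ↔ a = 0 := by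
  constructor
  · intro h
    exact C.h.inj (h.trans C.zero.symm)
  · rintro rfl
    exact C.zero

theorem Ctx.pos {a : G} : 0 < a ↔ Pos (lt x) (co a) := by
  have := C.h.pos 0 a
  rwa [C.zero, sub_zero] at this

/-- the relation of being infinitely smaller in coordinates -/
theorem Ctx.inf {a b : G} : Inf a b ↔ ∃ i, Top (lt x) (co b) i ∧ Low (lt x) (co a) i := by
  constructor
  · intro hI
    have hb : co b ≠ 0 := fun e => hI.ne (C.eq_zero.1 e)
    obtain ⟨i, hi⟩ := exists_top C.l hb
    refine ⟨i, hi, ?_⟩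
    by_contra hlow
    have ha : co a ≠ 0 := by
      intro e
      refine hlow fun j hj => ?_
      rw [e] at hj
      exact absurd rfl hj
    obtain ⟨k, hk⟩ := exists_top C.l ha
    have hik : k = i ∨ lt x i k := by
      by_contra h
      push Not at h
      rcases C.l.total k i h.1 with h1 | h1
      · exact hlow (top_low C.l hk h1)
      · exact h.2 h1
    have hbk : ∀ j, lt x k j → co b j = 0 := by
      intro j hj
      rcases hik with rfl | h1
      · exact hi.2 j hj
      · exact hi.2 j (C.l.trans _ _ _ h1 hj)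
    have key : ∀ n : ℤ, co b k < n * co a k → b < n • a := by
      intro n hn
      refine (C.h.pos _ _).2 ⟨k, ⟨?_, fun j hj => ?_⟩, ?_⟩
      · rw [C.zsmul, Finsupp.sub_apply, Finsupp.smul_apply, smul_eq_mul]
        exact ne_of_gt (by linarith)
      · rw [C.zsmul, Finsupp.sub_apply, Finsupp.smul_apply, hk.2 j hj, hbk j hj, smul_zero,
          sub_zero]
      · rw [C.zsmul, Finsupp.sub_apply, Finsupp.smul_apply, smul_eq_mul]
        linarith
    have key' : ∀ n : ℤ, n * co a k < co b k → n • a < b := by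
      intro n hn
      refine (C.h.pos _ _).2 ⟨k, ⟨?_, fun j hj => ?_⟩, ?_⟩
      · rw [C.zsmul, Finsupp.sub_apply, Finsupp.smul_apply, smul_eq_mul]
        exact ne_of_gt (by linarith)
      · rw [C.zsmul, Finsupp.sub_apply, Finsupp.smul_apply, hk.2 j hj, hbk j hj, smul_zero,
          sub_zero]
      · rw [C.zsmul, Finsupp.sub_apply, Finsupp.smul_apply, smul_eq_mul]
        linarith
    rcases hI with ⟨_, h2⟩ | ⟨_, h2⟩
    · obtain ⟨n, hn⟩ := exists_int_mul hk.1 (co b k)
      exact lt_asymm (key n hn) (h2 n)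
    · obtain ⟨n, hn⟩ := exists_int_mul hk.1 (-co b k)
      have : ((-n : ℤ) : ℚ) * co a k < co b k := by
        push_cast
        linarith
      exact lt_asymm (key' _ this) (h2 _)
  · rintro ⟨i, hi, hlow⟩
    have key : ∀ n : ℤ, Top (lt x) (co b - co (n • a)) i ∧ (co b - co (n • a)) i = co b i := by
      intro n
      rw [C.zsmul, sub_eq_add_neg, ← neg_smul]
      exact hi.add C.l (hlow.smul _)
    rcases lt_or_gt_of_ne hi.1 with h | h
    · refine Or.inr ⟨?_, fun n => ?_⟩
      · refine (C.h.pos _ _).2 ⟨i, ?_⟩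
        rw [C.zero, zero_sub]
        refine ⟨hi.neg, ?_⟩
        rw [Finsupp.neg_apply]
        linarith
      · refine (C.h.pos _ _).2 ⟨i, ?_⟩
        rw [← neg_sub]
        refine ⟨(key n).1.neg, ?_⟩
        rw [Finsupp.neg_apply, (key n).2]
        linarith
    · refine Or.inl ⟨C.pos.2 ⟨i, hi, h⟩, fun n => ?_⟩
      refine (C.h.pos _ _).2 ⟨i, (key n).1, ?_⟩
      rw [(key n).2]
      exact h

theorem Ctx.top_of_not_inf {h g : G} {i : Ix} (hi : Top (lt x) (co h) i) (hn : ¬ Inf h g) (j : Ix)
    (hj : lt x i j) : co g j = 0 := by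
  by_contra e
  have hg : co g ≠ 0 := by
    intro e'
    rw [e'] at e
    exact e rfl
  obtain ⟨k, hk⟩ := exists_top C.l hg
  have hik : lt x i k := by
    by_cases e1 : j = k
    · rw [← e1]; exact hj
    · rcases C.l.total j k e1 with h1 | h1
      · exact C.l.trans _ _ _ hj h1
      · exact absurd (hk.2 j h1) e
  exact hn (C.inf.2 ⟨k, hk, top_low C.l hi hik⟩)

theorem Ctx.not_inf_of_top {h g : G} {i : Ix} (hi : Top (lt x) (co h) i) (hg : Top (lt x) (co g) i) :
    ¬ Inf h g := by
  intro hI
  obtain ⟨k, h1, h2⟩ := C.inf.1 hI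
  have := Top.uniq C.l hg h1
  subst this
  exact C.l.irrefl _ (h2 _ hi.1)

theorem Ctx.loc_e (n : ℕ) : Loc p θ (Finsupp.single (inl n) 1) := by
  intro m
  by_cases e : n = m
  · subst e
    rw [Finsupp.single_eq_same, Finsupp.single_apply, if_neg (by simp)]
    simp
  · rw [Finsupp.single_apply, if_neg (by simpa using e), Finsupp.single_apply, if_neg (by simp)]
    simp

theorem Ctx.loc_f (n : ℕ) : Loc p θ (Finsupp.single (inr n) 1) := by
  intro m
  by_cases e : n = m
  · subst e
    rw [Finsupp.single_eq_same, Finsupp.single_apply, if_neg (by simp)]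
    simpa using C.hθ
  · rw [Finsupp.single_apply, if_neg (by simp), Finsupp.single_apply, if_neg (by simpa using e)]
    simp

theorem Ctx.fl {h : G} : (gops G).FL p h ↔ ∃ m, Top (lt x) (co h) (inr m) := by
  have hp0 : (p : ℚ) ≠ 0 := by exact_mod_cast hp.out.ne_zero
  constructor
  · rintro ⟨hne, H⟩
    have hh : co h ≠ 0 := fun e => hne (C.eq_zero.1 e)
    obtain ⟨i, hi⟩ := exists_top C.l hh
    rcases i with n | m
    · exfalso
      obtain ⟨g, hg⟩ := C.h.ex _ (C.loc_e n)
      have hgt : Top (lt x) (co g) (inl n) := by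
        rw [hg]
        refine ⟨by simp, fun j hj => ?_⟩
        rw [Finsupp.single_apply, if_neg]
        rintro rfl
        exact C.l.irrefl _ hj
      obtain ⟨g', hg'⟩ := H g (C.not_inf_of_top hi hgt)
      obtain ⟨i', h1, h2⟩ := C.inf.1 hg'
      have := Top.uniq C.l hi h1
      subst this
      have h3 : ∀ j, ¬ lt x j (inl n) → co g j = p * co g' j := by
        intro j hj
        by_contra e
        refine hj (h2 j ?_)
        simp only [C.add, C.zsmul, Finsupp.add_apply, Finsupp.smul_apply, smul_eq_mul]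
        push_cast
        intro e'
        exact e (by linarith)
      have h4 := h3 (inr n) (by simp [lt])
      have h5 := h3 (inl n) (C.l.irrefl _)
      rw [hg, Finsupp.single_apply, if_neg (by simp)] at h4
      rw [hg, Finsupp.single_eq_same] at h5
      have h6 : co g' (inr n) = 0 := by
        rcases mul_eq_zero.1 h4.symm with h | h
        · exact absurd h hp0
        · exact h
      have h7 := C.h.mem g' n
      rw [h6] at h7
      simp only [Rat.cast_zero, mul_zero, sub_zero] at h7
      have h8 : (1 : ℚ_[p]) = (p : ℚ_[p]) * (co g' (inl n) : ℚ) := by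
        have := congrArg (fun r : ℚ => (r : ℚ_[p])) h5
        push_cast at this
        exact this
      have h9 := congrArg norm h8
      rw [norm_one, norm_mul, Padic.norm_p] at h9
      have h10 : (1 : ℝ) < p := by exact_mod_cast hp.out.one_lt
      have h11 : (p : ℝ)⁻¹ < 1 := inv_lt_one_of_one_lt₀ h10
      have h12 : (p : ℝ)⁻¹ * ‖((co g' (inl n) : ℚ) : ℚ_[p])‖ ≤ (p : ℝ)⁻¹ * 1 :=
        mul_le_mul_of_nonneg_left h7 (by positivity)
      linarith
    · exact ⟨m, hi⟩
  · rintro ⟨m, hm⟩
    refine ⟨fun e => hm.1 ?_, fun g hg => ?_⟩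
    · rw [C.eq_zero.2 e]
      rfl
    · obtain ⟨r, hr⟩ := exists_rat p (θ * ((co g (inr m) / p : ℚ) : ℚ_[p]))
      have hloc : Loc p θ (Finsupp.single (inr m) (co g (inr m) / p) + Finsupp.single (inl m) r) := by
        intro n
        by_cases e : m = n
        · subst e
          simp only [Finsupp.add_apply, Finsupp.single_eq_same, Finsupp.single_apply,
            reduceCtorEq, if_false, add_zero, zero_add]
          exact hr
        · simp only [Finsupp.add_apply, Finsupp.single_apply, reduceCtorEq, if_false, inl.injEq,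
            inr.injEq, if_neg e, add_zero, Rat.cast_zero, mul_zero, sub_zero, norm_zero]
          exact zero_le_one
      obtain ⟨g', hg'⟩ := C.h.ex _ hloc
      refine ⟨g', C.inf.2 ⟨_, hm, fun j hj => ?_⟩⟩
      simp only [C.add, C.zsmul, Finsupp.add_apply, Finsupp.smul_apply, smul_eq_mul, hg'] at hj
      by_cases e : j = inr m
      · subst e
        exfalso
        apply hj
        rw [Finsupp.single_eq_same, Finsupp.single_apply, if_neg (by simp)]
        push_cast
        field_simp
        ring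
      · rcases C.l.total j (inr m) e with h1 | h1
        · exact h1
        · exfalso
          apply hj
          rw [C.top_of_not_inf hm hg j h1, Finsupp.single_apply, if_neg (fun e' => e e'.symm),
            Finsupp.single_apply, if_neg]
          · simp
          · rintro rfl
            exact h1

theorem Ctx.inA {a : G} : (gops G).InA p a ↔ ∀ m, co a (inr m) = 0 := by
  constructor
  · intro H m
    by_contra e
    have ha : co a ≠ 0 := by
      intro e'
      rw [e'] at e
      exact e rfl
    obtain ⟨i, hi⟩ := exists_top C.l ha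
    rcases i with n | m'
    · exact e (hi.2 (inr m) trivial)
    · exact inf_irrefl a (H a (C.fl.2 ⟨m', hi⟩))
  · intro H h hh
    obtain ⟨m, hm⟩ := C.fl.1 hh
    refine C.inf.2 ⟨_, hm, ?_⟩
    rintro (j | j) hj
    · trivial
    · exact absurd (H j) hj

end

end Pool.Agent.H38.OG
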