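import Pool.Agent.H38.OG.Rep

set_option autoImplicit false

/-! The groups attached to pairs of linear orders: units and partners. -/

namespace Pool.Agent.H38.OG

open Sum

section

variable {p : ℕ} [hp : Fact p.Prime] {θ : ℚ_[p]} {x : Pr} {G : Type} [AddCommGroup G]
    [LinearOrder G] [IsOrderedAddMonoid G] {co : G → (Ix →₀ ℚ)} (C : Ctx p θ x G co)

include C

theorem Ctx.norm_le {a : G} (ha : ∀ m, co a (inr m) = 0) (n : ℕ) :
    ‖((co a (inl n) : ℚ) : ℚ_[p])‖ ≤ 1 := by
  have := C.h.mem a n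
  rwa [ha n, Rat.cast_zero, mul_zero, sub_zero] at this

theorem Ctx.top_single {g : G} {i : Ix} (hg : co g = Finsupp.single i 1) :
    Top (lt x) (co g) i := by
  rw [hg]
  refine ⟨by simp, fun j hj => ?_⟩
  rw [Finsupp.single_apply, if_neg]
  rintro rfl
  exact C.l.irrefl _ hj

theorem Ctx.unt {a : G} : (gops G).Unt p a ↔ (∀ m, co a (inr m) = 0) ∧
    ∃ n, Top (lt x) (co a) (inl n) ∧ 0 < co a (inl n) ∧
      ‖((co a (inl n) : ℚ) : ℚ_[p])‖ = 1 := by
  constructor
  · rintro ⟨h0, hA, H⟩
    have hA' := C.inA.1 hA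
    refine ⟨hA', ?_⟩
    obtain ⟨i, hi, hpos⟩ := C.pos.1 h0
    rcases i with n | m
    · refine ⟨n, hi, hpos, ?_⟩
      obtain ⟨g, hg⟩ := C.h.ex _ (C.loc_e n)
      have hgA : (gops G).InA p g := by
        refine C.inA.2 fun m => ?_
        rw [hg, Finsupp.single_apply, if_neg (by simp)]
      obtain ⟨s, hs, m, hI⟩ := H g hgA (C.not_inf_of_top hi (C.top_single hg))
      obtain ⟨i', h1, h2⟩ := C.inf.1 hI
      have := Top.uniq C.l hi h1
      subst this
      have h3 : (s : ℚ) + m * co a (inl n) = 0 := by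
        by_contra e
        refine C.l.irrefl _ (h2 (inl n) ?_)
        simp only [C.add, C.zsmul, Finsupp.add_apply, Finsupp.smul_apply, smul_eq_mul, hg,
          Finsupp.single_eq_same]
        push_cast
        rwa [mul_one]
      have h4 : (s : ℚ_[p]) = -(m * (co a (inl n) : ℚ)) := by
        have h5 : (s : ℚ) = -(m * co a (inl n)) := by linarith
        have := congrArg (fun r : ℚ => (r : ℚ_[p])) h5
        push_cast at this
        exact this
      have h5 := congrArg norm h4
      rw [norm_coprime p hs, norm_neg, norm_mul] at h5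
      refine le_antisymm (C.norm_le hA' n) ?_
      calc (1 : ℝ) = ‖((m : ℤ) : ℚ_[p])‖ * ‖((co a (inl n) : ℚ) : ℚ_[p])‖ := h5
        _ ≤ 1 * ‖((co a (inl n) : ℚ) : ℚ_[p])‖ :=
            mul_le_mul_of_nonneg_right (Padic.norm_int_le_one m) (norm_nonneg _)
        _ = _ := one_mul _
    · exact absurd (hA' m) hi.1
  · rintro ⟨hA, n, hn, hpos, hnorm⟩
    refine ⟨C.pos.2 ⟨_, hn, hpos⟩, C.inA.2 hA, fun g hg hng => ?_⟩
    have hgA := C.inA.1 hg
    set r : ℚ := co g (inl n) / co a (inl n) with hr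
    have hr1 : ‖(r : ℚ_[p])‖ ≤ 1 := by
      rw [hr]
      push_cast
      rw [norm_div, hnorm, div_one]
      exact C.norm_le hgA n
    refine ⟨r.den, den_of_norm p hr1, -r.num, C.inf.2 ⟨_, hn, fun j hj => ?_⟩⟩
    by_contra hlt
    apply hj
    simp only [C.add, C.zsmul, Finsupp.add_apply, Finsupp.smul_apply, smul_eq_mul]
    by_cases e : j = inl n
    · subst e
      have h1 : co g (inl n) = r * co a (inl n) := by
        rw [hr]
        field_simp
      rw [h1]
      have h2 : (r.den : ℚ) * r = r.num := Rat.den_mul_eq_num r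
      push_cast
      rw [← mul_assoc, h2]
      ring
    · rcases C.l.total j (inl n) e with h1 | h1
      · exact absurd h1 hlt
      · rw [hn.2 j h1, C.top_of_not_inf hn hng j h1]
        simp

theorem Ctx.rr {a h : G} (ha : ∀ m, co a (inr m) = 0) :
    (gops G).Rr p θ a h ↔ ∀ n, co h (inl n) = 0 ∧ co h (inr n) = co a (inl n) := by
  have hp0 : (p : ℚ_[p]) ≠ 0 := by exact_mod_cast hp.out.ne_zero
  have hp1 : (p : ℚ) ≠ 0 := by exact_mod_cast hp.out.ne_zero
  have hp2 : (0 : ℝ) < p := by exact_mod_cast hp.out.pos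
  constructor
  · intro H n
    have hα := C.norm_le ha n
    have key : ∀ k : ℕ, ‖((co h (inl n) : ℚ) : ℚ_[p]) + θ * ((co a (inl n) : ℚ) : ℚ_[p]) -
        θ * ((co h (inr n) : ℚ) : ℚ_[p])‖ ≤ ((p : ℝ) ^ k)⁻¹ := by
      intro k
      obtain ⟨t, ht⟩ := exists_approx p C.hθ k
      obtain ⟨g, hg⟩ := H k t ht
      have h1 : (p : ℚ) ^ k * co g (inl n) = co h (inl n) + t * co a (inl n) := by
        have := congrArg (fun a => co a (inl n)) hg
        simp only [C.add, C.zsmul, Finsupp.add_apply, Finsupp.smul_apply, smul_eq_mul] at this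
        push_cast at this
        exact this
      have h2 : (p : ℚ) ^ k * co g (inr n) = co h (inr n) := by
        have := congrArg (fun a => co a (inr n)) hg
        simp only [C.add, C.zsmul, Finsupp.add_apply, Finsupp.smul_apply, smul_eq_mul, ha,
          mul_zero, add_zero] at this
        push_cast at this
        exact this
      have h3 := C.h.mem g n
      have h4 : ((co h (inl n) : ℚ) : ℚ_[p]) + θ * ((co a (inl n) : ℚ) : ℚ_[p]) -
          θ * ((co h (inr n) : ℚ) : ℚ_[p]) = (p : ℚ_[p]) ^ k * (((co g (inl n) : ℚ) : ℚ_[p]) -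
            θ * ((co g (inr n) : ℚ) : ℚ_[p])) + (θ - t) * ((co a (inl n) : ℚ) : ℚ_[p]) := by
        have h5 := congrArg (fun r : ℚ => (r : ℚ_[p])) h1
        have h6 := congrArg (fun r : ℚ => (r : ℚ_[p])) h2
        push_cast at h5 h6
        rw [mul_sub, h5, ← h6]
        ring
      rw [h4]
      refine (Padic.nonarchimedean _ _).trans (max_le ?_ ?_)
      · rw [norm_mul, norm_pow_p]
        exact mul_le_of_le_one_right (by positivity) h3
      · rw [norm_mul]
        calc _ ≤ ((p : ℝ) ^ k)⁻¹ * 1 :=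
              mul_le_mul ht hα (norm_nonneg _) (by positivity)
          _ = _ := mul_one _
    have h0 := eq_zero_of_small p key
    by_cases e : co h (inr n) = co a (inl n)
    · refine ⟨?_, e⟩
      rw [e, add_sub_cancel_right] at h0
      exact_mod_cast h0
    · exfalso
      have h1 : ((co h (inr n) - co a (inl n) : ℚ) : ℚ_[p]) ≠ 0 := by
        have : co h (inr n) - co a (inl n) ≠ 0 := sub_ne_zero.2 e
        exact_mod_cast this
      refine C.hi (co h (inl n) / (co h (inr n) - co a (inl n))) ?_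
      push_cast at h1 ⊢
      rw [div_eq_iff h1]
      linear_combination h0
  · intro H k t ht
    have hloc : Loc p θ ((((p : ℚ) ^ k)⁻¹) • (co h + (t : ℚ) • co a)) := by
      intro n
      simp only [Finsupp.smul_apply, Finsupp.add_apply, smul_eq_mul, (H n).1, (H n).2, ha]
      push_cast
      have h1 : ((p : ℚ_[p]) ^ k)⁻¹ * (0 + t * ((co a (inl n) : ℚ) : ℚ_[p])) -
          θ * (((p : ℚ_[p]) ^ k)⁻¹ * (((co a (inl n) : ℚ) : ℚ_[p]) + t * 0)) =
          ((p : ℚ_[p]) ^ k)⁻¹ * ((t - θ) * ((co a (inl n) : ℚ) : ℚ_[p])) := by ring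
      rw [h1, norm_mul, norm_inv, norm_pow_p, inv_inv, norm_mul, norm_sub_rev]
      calc (p : ℝ) ^ k * (‖θ - (t : ℚ_[p])‖ * ‖((co a (inl n) : ℚ) : ℚ_[p])‖) ≤
            (p : ℝ) ^ k * (((p : ℝ) ^ k)⁻¹ * 1) := by
            refine mul_le_mul_of_nonneg_left ?_ (by positivity)
            exact mul_le_mul ht (C.norm_le ha n) (norm_nonneg _) (by positivity)
        _ = 1 := by
            rw [mul_one, mul_inv_cancel₀ (by positivity)]
    obtain ⟨g, hg⟩ := C.h.ex _ hloc
    refine ⟨g, C.h.inj ?_⟩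
    simp only [C.add, C.zsmul, hg]
    push_cast
    rw [smul_smul, mul_inv_cancel₀ (pow_ne_zero _ hp1), one_smul]

theorem Ctx.ur {a h : G} : (gops G).UR p θ a h ↔ (∀ m, co a (inr m) = 0) ∧
    (∀ n, co h (inl n) = 0 ∧ co h (inr n) = co a (inl n)) ∧
    ∃ n, Top (lt x) (co a) (inl n) ∧ 0 < co a (inl n) ∧
      ‖((co a (inl n) : ℚ) : ℚ_[p])‖ = 1 ∧ Top (lt x) (co h) (inr n) := by
  constructor
  · rintro ⟨hU, hR, h0, -, H⟩
    obtain ⟨hA, n, hn, hpos, hnorm⟩ := C.unt.1 hU
    have hR' := (C.rr hA).1 hR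
    refine ⟨hA, hR', n, hn, hpos, hnorm, ?_⟩
    obtain ⟨i, hi, -⟩ := C.pos.1 h0
    rcases i with k | m
    · exact absurd (hR' k).1 hi.1
    · by_cases e : m = n
      · rw [e] at hi; exact hi
      · exfalso
        have hne : co h (inr n) ≠ 0 := by
          rw [(hR' n).2]
          exact hn.1
        have hlt : lt x (inr n) (inr m) := by
          rcases C.l.total (inr n) (inr m) (fun e' => e (Sum.inr.inj e').symm) with h1 | h1
          · exact h1
          · exact absurd (hi.2 _ h1) hne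
        obtain ⟨a', ha'⟩ := C.h.ex _ (C.loc_e n)
        obtain ⟨h', hh'⟩ := C.h.ex _ (C.loc_f n)
        have hA' : ∀ m, co a' (inr m) = 0 := fun m => by
          rw [ha', Finsupp.single_apply, if_neg (by simp)]
        refine H a' h' (C.unt.2 ⟨hA', n, C.top_single ha', ?_, ?_⟩)
          (C.not_inf_of_top hn (C.top_single ha')) (C.not_inf_of_top (C.top_single ha') hn)
          ((C.rr hA').2 fun k => ⟨?_, ?_⟩)
          (C.inf.2 ⟨_, hi, top_low C.l (C.top_single hh') hlt⟩)
        · rw [ha', Finsupp.single_eq_same]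
          exact one_pos
        · rw [ha', Finsupp.single_eq_same]
          simp
        · rw [hh', Finsupp.single_apply, if_neg (by simp)]
        · rw [hh', ha', Finsupp.single_apply, Finsupp.single_apply]
          by_cases e' : n = k
          · rw [if_pos (by rw [e']), if_pos (by rw [e'])]
          · rw [if_neg (fun h => e' (Sum.inr.inj h)), if_neg (fun h => e' (Sum.inl.inj h))]
  · rintro ⟨hA, hR, n, hn, hpos, hnorm, hh⟩
    refine ⟨C.unt.2 ⟨hA, n, hn, hpos, hnorm⟩, (C.rr hA).2 hR, C.pos.2 ⟨_, hh, ?_⟩,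
      C.fl.2 ⟨n, hh⟩, ?_⟩
    · rw [(hR n).2]
      exact hpos
    · intro a' h' hU h1 h2 h3 hI
      obtain ⟨hA', n', hn', -, -⟩ := C.unt.1 hU
      have e : n = n' := by
        by_contra e
        rcases C.l.total (inl n) (inl n') (fun e' => e (Sum.inl.inj e')) with h4 | h4
        · exact h1 (C.inf.2 ⟨_, hn', top_low C.l hn h4⟩)
        · exact h2 (C.inf.2 ⟨_, hn, top_low C.l hn' h4⟩)
      subst e
      obtain ⟨i, h4, h5⟩ := C.inf.1 hI
      have := Top.uniq C.l hh h4
      subst this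
      refine C.l.irrefl _ (h5 (inr n) ?_)
      rw [((C.rr hA').1 h3 n).2]
      exact hn'.1

end

end Pool.Agent.H38.OG
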