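import Pool.Agent.H38.OG.Rep2

set_option autoImplicit false

/-! The groups attached to pairs of linear orders are in the class. -/

namespace Pool.Agent.H38.OG

open Sum

theorem norm_sum_le {p : ℕ} [Fact p.Prime] {τ : Type} (S : Finset τ) (f : τ → ℚ_[p]) {B : ℝ}
    (hB : 0 ≤ B) (h : ∀ i ∈ S, ‖f i‖ ≤ B) : ‖∑ i ∈ S, f i‖ ≤ B := by
  classical
  induction S using Finset.induction_on with
  | empty => rw [Finset.sum_empty, norm_zero]; exact hB
  | insert a S ha ih =>
    rw [Finset.sum_insert ha]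
    exact (Padic.nonarchimedean _ _).trans (max_le (h a (Finset.mem_insert_self _ _))
      (ih fun i hi => h i (Finset.mem_insert_of_mem hi)))

theorem common_den {n : ℕ} (q : Fin n → ℚ × ℚ) : ∃ (K : ℕ) (m : Fin n → ℤ × ℤ), 0 < K ∧
    ∀ i, (K : ℚ) * (q i).1 = (m i).1 ∧ (K : ℚ) * (q i).2 = (m i).2 := by
  classical
  have key : ∀ (K : ℕ) (r : ℚ), r.den ∣ K → ∃ m : ℤ, (K : ℚ) * r = m := by
    rintro K r ⟨e, rfl⟩
    refine ⟨e * r.num, ?_⟩
    have := Rat.den_mul_eq_num r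
    push_cast
    rw [mul_comm (r.den : ℚ) (e : ℚ), mul_assoc, this]
  let K : ℕ := ∏ i, ((q i).1.den * (q i).2.den)
  have hK : ∀ i, (q i).1.den * (q i).2.den ∣ K := fun i =>
    Finset.dvd_prod_of_mem _ (Finset.mem_univ i)
  have h1 : ∀ i, ∃ m : ℤ, (K : ℚ) * (q i).1 = m := fun i =>
    key _ _ ((Dvd.intro _ rfl).trans (hK i))
  have h2 : ∀ i, ∃ m : ℤ, (K : ℚ) * (q i).2 = m := fun i =>
    key _ _ ((Dvd.intro_left _ rfl).trans (hK i))
  choose m1 hm1 using h1
  choose m2 hm2 using h2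
  refine ⟨K, fun i => (m1 i, m2 i), Finset.prod_pos fun i _ => ?_, fun i => ⟨hm1 i, hm2 i⟩⟩
  exact Nat.mul_pos (q i).1.den_pos (q i).2.den_pos

theorem single_mem {r : ℕ → ℕ → Prop} (hr : Lin r) {N : Finset ℕ} {n : ℕ}
    (α : Fin n → ℕ →₀ ℚ) (ν : Fin n → ℕ) (hN : ∀ j, (α j).support ⊆ N)
    (hν : ∀ k ∈ N, ∃ j, ν j = k) (h0 : ∀ j, α j (ν j) ≠ 0)
    (htop : ∀ j l, r (ν j) l → α j l = 0) :
    ∀ k ∈ N, Finsupp.single k (1 : ℚ) ∈ Submodule.span ℚ (Set.range α) := by
  classical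
  by_contra hcon
  push Not at hcon
  obtain ⟨k0, hk0, hk0'⟩ := hcon
  have hr' : Lin (fun a b => r b a) :=
    ⟨hr.irrefl, fun a b c h h' => hr.trans _ _ _ h' h, fun a b h => (hr.total a b h).symm⟩
  obtain ⟨k, hk, hmin⟩ := exists_max hr' (N.filter fun k =>
    Finsupp.single k (1 : ℚ) ∉ Submodule.span ℚ (Set.range α))
    ⟨k0, Finset.mem_filter.2 ⟨hk0, hk0'⟩⟩
  obtain ⟨hkN, hk'⟩ := Finset.mem_filter.1 hk
  obtain ⟨j, hj⟩ := hν k hkN
  apply hk'
  have h1 : α j = ∑ l ∈ N, α j l • Finsupp.single l (1 : ℚ) := by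
    conv_lhs => rw [← Finsupp.sum_single (α j)]
    rw [Finsupp.sum_of_support_subset _ (hN j) _ (by simp)]
    refine Finset.sum_congr rfl fun l _ => ?_
    rw [Finsupp.smul_single, smul_eq_mul, mul_one]
  rw [← Finset.add_sum_erase _ _ hkN] at h1
  have h2 : α j k • Finsupp.single k (1 : ℚ) =
      α j - ∑ l ∈ N.erase k, α j l • Finsupp.single l (1 : ℚ) := by
    rw [eq_sub_iff_add_eq]
    exact h1.symm
  have h3 : α j k • Finsupp.single k (1 : ℚ) ∈ Submodule.span ℚ (Set.range α) := by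
    rw [h2]
    refine Submodule.sub_mem _ (Submodule.subset_span ⟨j, rfl⟩) (Submodule.sum_mem _ ?_)
    intro l hl
    obtain ⟨hlk, hlN⟩ := Finset.mem_erase.1 hl
    by_cases e : α j l = 0
    · rw [e, zero_smul]
      exact Submodule.zero_mem _
    · refine Submodule.smul_mem _ _ ?_
      by_contra hl'
      have h4 := hmin l (Finset.mem_filter.2 ⟨hlN, hl'⟩) hlk
      rw [← hj] at h4
      exact e (htop j l h4)
  have h4 : α j k ≠ 0 := by
    rw [← hj]
    exact h0 j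
  have := Submodule.smul_mem _ (α j k)⁻¹ h3
  rwa [smul_smul, inv_mul_cancel₀ h4, one_smul] at this

/-- the lower part of a vector -/
noncomputable def lo (v : Ix →₀ ℚ) : ℕ →₀ ℚ := v.comapDomain inl Sum.inl_injective.injOn

/-- the upper part of a vector -/
noncomputable def up (v : Ix →₀ ℚ) : ℕ →₀ ℚ := v.comapDomain inr Sum.inr_injective.injOn

theorem lo_apply (v : Ix →₀ ℚ) (k : ℕ) : lo v k = v (inl k) := rfl

theorem up_apply (v : Ix →₀ ℚ) (k : ℕ) : up v k = v (inr k) := rfl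

section

variable {p : ℕ} [hp : Fact p.Prime] {θ : ℚ_[p]} {x : Pr} {G : Type} [AddCommGroup G]
    [LinearOrder G] [IsOrderedAddMonoid G] {co : G → (Ix →₀ ℚ)} (C : Ctx p θ x G co)

include C

theorem Ctx.cmp {a a' : G} {i i' : Ix} (h : Top (lt x) (co a) i) (h' : Top (lt x) (co a') i') :
    (Inf a a' ∨ Inf a' a) ↔ i ≠ i' := by
  constructor
  · rintro (h1 | h1) e
    · subst e
      exact C.not_inf_of_top h h' h1
    · subst e
      exact C.not_inf_of_top h' h h1
  · intro e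
    rcases C.l.total i i' e with h1 | h1
    · exact Or.inl (C.inf.2 ⟨_, h', top_low C.l h h1⟩)
    · exact Or.inr (C.inf.2 ⟨_, h, top_low C.l h' h1⟩)

theorem Ctx.coord {n : ℕ} {c : Fin n → G × G} (hA : ∀ i m, co (c i).1 (inr m) = 0)
    (hR : ∀ i k, co (c i).2 (inl k) = 0 ∧ co (c i).2 (inr k) = co (c i).1 (inl k))
    (m : Fin n → ℤ × ℤ) (l : ℕ) :
    co ((gops G).comb c m) (inl l) = ∑ i, ((m i).1 : ℚ) * co (c i).1 (inl l) ∧
    co ((gops G).comb c m) (inr l) = ∑ i, ((m i).2 : ℚ) * co (c i).1 (inl l) := by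
  rw [gops_comb, C.sum, Finsupp.finsetSum_apply, Finsupp.finsetSum_apply]
  constructor
  · refine Finset.sum_congr rfl fun i _ => ?_
    rw [C.add, C.zsmul, C.zsmul, Finsupp.add_apply, Finsupp.smul_apply, Finsupp.smul_apply,
      smul_eq_mul, smul_eq_mul, (hR i l).1, mul_zero, add_zero]
  · refine Finset.sum_congr rfl fun i _ => ?_
    rw [C.add, C.zsmul, C.zsmul, Finsupp.add_apply, Finsupp.smul_apply, Finsupp.smul_apply,
      smul_eq_mul, smul_eq_mul, (hR i l).2, hA, mul_zero, zero_add]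

theorem Ctx.b1 {n : ℕ} {c : Fin n → G × G} (hc : (gops G).Good p θ c) (k : ℕ)
    (m : Fin n → ℤ × ℤ) (g : G) (hg : (k : ℤ) • g = (gops G).comb c m) (i : Fin n) :
    ‖(((m i).1 : ℤ) : ℚ_[p]) - θ * (((m i).2 : ℤ) : ℚ_[p])‖ ≤ ‖(k : ℚ_[p])‖ := by
  classical
  have hU := fun i => C.ur.1 (hc.1 i)
  choose hA hR ν hν hpos hnorm hνh using hU
  have hne : ∀ i j, i ≠ j → ν i ≠ ν j := by
    intro i j hij e
    have := (C.cmp (hν i) (hν j)).1 (hc.2 i j hij).1
    exact this (by rw [e])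
  have htot : ∀ l, ‖∑ i, ((((m i).1 : ℤ) : ℚ_[p]) - θ * (((m i).2 : ℤ) : ℚ_[p])) *
      ((co (c i).1 (inl l) : ℚ) : ℚ_[p])‖ ≤ ‖(k : ℚ_[p])‖ := by
    intro l
    have h1 := (C.coord hA hR m l).1
    have h2 := (C.coord hA hR m l).2
    rw [← hg, C.zsmul, Finsupp.smul_apply, smul_eq_mul] at h1 h2
    have h3 := congrArg (fun r : ℚ => (r : ℚ_[p])) h1
    have h4 := congrArg (fun r : ℚ => (r : ℚ_[p])) h2
    push_cast at h3 h4
    have h5 : ∑ i, ((((m i).1 : ℤ) : ℚ_[p]) - θ * (((m i).2 : ℤ) : ℚ_[p])) *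
        ((co (c i).1 (inl l) : ℚ) : ℚ_[p]) = (k : ℚ_[p]) * (((co g (inl l) : ℚ) : ℚ_[p]) -
          θ * ((co g (inr l) : ℚ) : ℚ_[p])) := by
      rw [mul_sub, h3, mul_left_comm, h4, Finset.mul_sum, ← Finset.sum_sub_distrib]
      exact Finset.sum_congr rfl fun i _ => by ring
    rw [h5, norm_mul]
    exact mul_le_of_le_one_right (norm_nonneg _) (C.h.mem g l)
  by_contra hcon
  push Not at hcon
  have hlin : Lin (fun i j : Fin n => lt x (inl (ν i)) (inl (ν j))) :=
    ⟨fun i => C.l.irrefl _, fun a b c => C.l.trans _ _ _, fun a b h =>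
      C.l.total _ _ fun e => hne a b h (Sum.inl.inj e)⟩
  obtain ⟨i0, hi0, hmax⟩ := exists_max hlin (Finset.univ.filter fun i =>
    ‖(k : ℚ_[p])‖ < ‖(((m i).1 : ℤ) : ℚ_[p]) - θ * (((m i).2 : ℤ) : ℚ_[p])‖)
    ⟨i, Finset.mem_filter.2 ⟨Finset.mem_univ _, hcon⟩⟩
  have hbad := (Finset.mem_filter.1 hi0).2
  have h1 := htot (ν i0)
  rw [← Finset.add_sum_erase _ _ (Finset.mem_univ i0)] at h1
  have h2 : ‖∑ j ∈ Finset.univ.erase i0, ((((m j).1 : ℤ) : ℚ_[p]) -
      θ * (((m j).2 : ℤ) : ℚ_[p])) * ((co (c j).1 (inl (ν i0)) : ℚ) : ℚ_[p])‖ ≤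
      ‖(k : ℚ_[p])‖ := by
    refine norm_sum_le _ _ (norm_nonneg _) fun j hj => ?_
    have hj' := (Finset.mem_erase.1 hj).1
    by_cases e : ‖(k : ℚ_[p])‖ < ‖(((m j).1 : ℤ) : ℚ_[p]) - θ * (((m j).2 : ℤ) : ℚ_[p])‖
    · have h3 := hmax j (Finset.mem_filter.2 ⟨Finset.mem_univ _, e⟩) hj'
      rw [(hν j).2 _ h3, Rat.cast_zero, mul_zero, norm_zero]
      exact norm_nonneg _
    · rw [norm_mul]
      calc _ ≤ ‖(k : ℚ_[p])‖ * 1 := mul_le_mul (not_lt.1 e) (C.norm_le (hA j) _)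
            (norm_nonneg _) (norm_nonneg _)
        _ = _ := mul_one _
  have h3 : ‖((((m i0).1 : ℤ) : ℚ_[p]) - θ * (((m i0).2 : ℤ) : ℚ_[p])) *
      ((co (c i0).1 (inl (ν i0)) : ℚ) : ℚ_[p])‖ ≤ ‖(k : ℚ_[p])‖ := by
    have h4 := norm_sub_le_max p (((((m i0).1 : ℤ) : ℚ_[p]) - θ * (((m i0).2 : ℤ) : ℚ_[p])) *
      ((co (c i0).1 (inl (ν i0)) : ℚ) : ℚ_[p]) +
      ∑ j ∈ Finset.univ.erase i0, ((((m j).1 : ℤ) : ℚ_[p]) -
      θ * (((m j).2 : ℤ) : ℚ_[p])) * ((co (c j).1 (inl (ν i0)) : ℚ) : ℚ_[p]))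
      (∑ j ∈ Finset.univ.erase i0, ((((m j).1 : ℤ) : ℚ_[p]) -
      θ * (((m j).2 : ℤ) : ℚ_[p])) * ((co (c j).1 (inl (ν i0)) : ℚ) : ℚ_[p]))
    rw [add_sub_cancel_right] at h4
    exact h4.trans (max_le h1 h2)
  rw [norm_mul, hnorm i0, mul_one] at h3
  exact absurd h3 (not_le.2 hbad)

theorem Ctx.ext {n : ℕ} {c : Fin n → G × G} (hc : (gops G).Good p θ c) (g : G) :
    ∃ (n' : ℕ) (c' : Fin n' → G × G), n < n' ∧
    (gops G).Good p θ c' ∧ (∀ (i : Fin n) (j : Fin n'), i.val = j.val → c' j = c i) ∧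
    ∃ (k : ℕ) (m : Fin n' → ℤ × ℤ), 0 < k ∧ (k : ℤ) • g = (gops G).comb c' m := by
  classical
  have hU := fun i => C.ur.1 (hc.1 i)
  choose hA hR ν hν hpos hnorm hνh using hU
  have hne : ∀ i j, i ≠ j → ν i ≠ ν j := by
    intro i j hij e
    have := (C.cmp (hν i) (hν j)).1 (hc.2 i j hij).1
    exact this (by rw [e])
  -- the elements of the basis
  choose e he using fun k => C.h.ex _ (C.loc_e k)
  choose f hf using fun k => C.h.ex _ (C.loc_f k)
  -- the indices
  let N0 : Finset ℕ := (Finset.univ.biUnion fun i => (lo (co (c i).1)).support) ∪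
    (lo (co g)).support ∪ (up (co g)).support ∪ Finset.univ.image ν
  obtain ⟨z, hz⟩ := Infinite.exists_notMem_finset N0
  let N : Finset ℕ := insert z N0
  let T : Finset ℕ := N \ Finset.univ.image ν
  have hzT : z ∈ T := by
    refine Finset.mem_sdiff.2 ⟨Finset.mem_insert_self _ _, fun h => hz ?_⟩
    exact Finset.mem_union_right _ h
  let τ : Fin T.card ≃ T := T.equivFin.symm
  let ν' : Fin (n + T.card) → ℕ := Fin.append ν fun j => (τ j : ℕ)
  let c' : Fin (n + T.card) → G × G := Fin.append c fun j => (e (τ j), f (τ j))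
  have hνl : ∀ i : Fin n, ν' (Fin.castAdd T.card i) = ν i := fun i => by
    simp only [ν', Fin.append_left]
  have hνr : ∀ j : Fin T.card, ν' (Fin.natAdd n j) = τ j := fun j => by
    simp only [ν', Fin.append_right]
  have hcl : ∀ i : Fin n, c' (Fin.castAdd T.card i) = c i := fun i => by
    simp only [c', Fin.append_left]
  have hcr : ∀ j : Fin T.card, c' (Fin.natAdd n j) = (e (τ j), f (τ j)) := fun j => by
    simp only [c', Fin.append_right]
  have hinj : ∀ i j, i ≠ j → ν' i ≠ ν' j := by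
    intro i j
    refine Fin.addCases (fun i => ?_) (fun i => ?_) i <;>
      refine Fin.addCases (fun j => ?_) (fun j => ?_) j
    · intro hij
      rw [hνl, hνl]
      exact hne i j fun e => hij (by rw [e])
    · intro _ h
      rw [hνl, hνr] at h
      have := (Finset.mem_sdiff.1 (τ j).2).2
      exact this (by rw [← h]; exact Finset.mem_image_of_mem _ (Finset.mem_univ _))
    · intro _ h
      rw [hνl, hνr] at h
      have := (Finset.mem_sdiff.1 (τ i).2).2
      exact this (by rw [h]; exact Finset.mem_image_of_mem _ (Finset.mem_univ _))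
    · intro hij
      rw [hνr, hνr]
      intro h
      exact hij (by rw [τ.injective (Subtype.ext h)])
  have hAe : ∀ k m, co (e k) (inr m) = 0 := fun k m => by
    rw [he, Finsupp.single_apply, if_neg (by simp)]
  have hRe : ∀ k l, co (f k) (inl l) = 0 ∧ co (f k) (inr l) = co (e k) (inl l) := by
    intro k l
    rw [hf, he]
    refine ⟨by rw [Finsupp.single_apply, if_neg (by simp)], ?_⟩
    rw [Finsupp.single_apply, Finsupp.single_apply]
    by_cases e' : k = l
    · rw [if_pos (by rw [e']), if_pos (by rw [e'])]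
    · rw [if_neg (fun h => e' (Sum.inr.inj h)), if_neg (fun h => e' (Sum.inl.inj h))]
  have hA' : ∀ j m, co (c' j).1 (inr m) = 0 := by
    intro j
    refine Fin.addCases (fun i => ?_) (fun i => ?_) j
    · rw [hcl]; exact hA i
    · rw [hcr]; exact hAe _
  have hR' : ∀ j k, co (c' j).2 (inl k) = 0 ∧ co (c' j).2 (inr k) = co (c' j).1 (inl k) := by
    intro j
    refine Fin.addCases (fun i => ?_) (fun i => ?_) j
    · rw [hcl]; exact hR i
    · rw [hcr]; exact hRe _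
  have htop : ∀ j, Top (lt x) (co (c' j).1) (inl (ν' j)) ∧ 0 < co (c' j).1 (inl (ν' j)) ∧
      ‖((co (c' j).1 (inl (ν' j)) : ℚ) : ℚ_[p])‖ = 1 ∧
      Top (lt x) (co (c' j).2) (inr (ν' j)) := by
    intro j
    refine Fin.addCases (fun i => ?_) (fun i => ?_) j
    · rw [hcl, hνl]; exact ⟨hν i, hpos i, hnorm i, hνh i⟩
    · rw [hcr, hνr]
      refine ⟨C.top_single (he _), ?_, ?_, C.top_single (hf _)⟩
      · rw [he, Finsupp.single_eq_same]; exact one_pos
      · rw [he, Finsupp.single_eq_same]; simp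
  refine ⟨n + T.card, c', ?_, ⟨fun j => C.ur.2 ⟨hA' j, hR' j, ν' j, htop j⟩, fun i j hij => ?_⟩,
    fun i j hij => ?_, ?_⟩
  · have : 0 < T.card := Finset.card_pos.2 ⟨z, hzT⟩
    omega
  · exact ⟨(C.cmp (htop i).1 (htop j).1).2 fun e' => hinj i j hij (Sum.inl.inj e'),
      (C.cmp (htop i).2.2.2 (htop j).2.2.2).2 fun e' => hinj i j hij (Sum.inr.inj e')⟩
  · have : j = Fin.castAdd T.card i := Fin.ext hij.symm
    rw [this, hcl]
  · -- the span
    have hspan := single_mem C.hx.fst (N := N) (fun j => lo (co (c' j).1)) ν' (by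
      intro j
      refine Fin.addCases (fun i => ?_) (fun i => ?_) j
      · rw [hcl]
        intro k hk
        refine Finset.mem_insert_of_mem (Finset.mem_union_left _ (Finset.mem_union_left _
          (Finset.mem_union_left _ ?_)))
        exact Finset.mem_biUnion.2 ⟨i, Finset.mem_univ _, hk⟩
      · rw [hcr]
        intro k hk
        have h1 := Finsupp.mem_support_iff.1 hk
        rw [lo_apply] at h1
        simp only [he] at h1
        rw [Finsupp.single_apply] at h1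
        have h2 : (τ i : ℕ) = k := by
          by_contra e'
          exact h1 (if_neg fun h => e' (Sum.inl.inj h))
        rw [← h2]
        exact (Finset.mem_sdiff.1 (τ i).2).1) (by
      intro k hk
      by_cases h1 : k ∈ Finset.univ.image ν
      · obtain ⟨i, -, hi⟩ := Finset.mem_image.1 h1
        exact ⟨Fin.castAdd _ i, by rw [hνl]; exact hi⟩
      · have h2 : k ∈ T := Finset.mem_sdiff.2 ⟨hk, h1⟩
        refine ⟨Fin.natAdd n (τ.symm ⟨k, h2⟩), ?_⟩
        rw [hνr, Equiv.apply_symm_apply]) (fun j => (htop j).1.1)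
      (fun j l hl => (htop j).1.2 (inl l) hl)
    have hmem : ∀ w : ℕ →₀ ℚ, w.support ⊆ N →
        w ∈ Submodule.span ℚ (Set.range fun j => lo (co (c' j).1)) := by
      intro w hw
      rw [← Finsupp.sum_single w]
      refine Submodule.sum_mem _ fun k hk => ?_
      have h1 : Finsupp.single k (w k) = w k • Finsupp.single k (1 : ℚ) := by
        rw [Finsupp.smul_single, smul_eq_mul, mul_one]
      rw [h1]
      exact Submodule.smul_mem _ _ (hspan k (hw hk))
    obtain ⟨q1, hq1⟩ := (Submodule.mem_span_range_iff_exists_fun ℚ).1 (hmem (lo (co g)) (by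
      intro k hk
      exact Finset.mem_insert_of_mem (Finset.mem_union_left _ (Finset.mem_union_left _
          (Finset.mem_union_right _ hk)))))
    obtain ⟨q2, hq2⟩ := (Submodule.mem_span_range_iff_exists_fun ℚ).1 (hmem (up (co g)) (by
      intro k hk
      exact Finset.mem_insert_of_mem (Finset.mem_union_left _ (Finset.mem_union_right _ hk))))
    obtain ⟨K, m, hK, hm⟩ := common_den fun j => (q1 j, q2 j)
    refine ⟨K, m, hK, C.h.inj ?_⟩
    rw [C.zsmul]
    ext i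
    rcases i with l | l
    · rw [(C.coord hA' hR' m l).1, Finsupp.smul_apply, smul_eq_mul, ← lo_apply (co g), ← hq1,
        Finsupp.finsetSum_apply, Finset.mul_sum]
      refine Finset.sum_congr rfl fun j _ => ?_
      rw [Finsupp.smul_apply, smul_eq_mul, ← mul_assoc, lo_apply, ← (hm j).1]
      rfl
    · rw [(C.coord hA' hR' m l).2, Finsupp.smul_apply, smul_eq_mul, ← up_apply (co g), ← hq2,
        Finsupp.finsetSum_apply, Finset.mul_sum]
      refine Finset.sum_congr rfl fun j _ => ?_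
      rw [Finsupp.smul_apply, smul_eq_mul, ← mul_assoc, lo_apply, ← (hm j).2]
      rfl

theorem Ctx.dvd {s : ℕ} (hs : ¬ p ∣ s) (g : G) : ∃ g', (s : ℤ) • g' = g := by
  have hs0 : (s : ℚ) ≠ 0 := by
    intro e
    have : s = 0 := by exact_mod_cast e
    exact hs (this ▸ dvd_zero p)
  have hloc : Loc p θ ((s : ℚ)⁻¹ • co g) := by
    intro n
    have h1 := C.h.mem g n
    simp only [Finsupp.smul_apply, smul_eq_mul]
    push_cast
    have h2 : ((s : ℚ_[p]))⁻¹ * ((co g (inl n) : ℚ) : ℚ_[p]) -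
        θ * ((s : ℚ_[p])⁻¹ * ((co g (inr n) : ℚ) : ℚ_[p])) = (s : ℚ_[p])⁻¹ *
        (((co g (inl n) : ℚ) : ℚ_[p]) - θ * ((co g (inr n) : ℚ) : ℚ_[p])) := by ring
    rw [h2, norm_mul, norm_inv, norm_coprime p hs, inv_one, one_mul]
    exact h1
  obtain ⟨g', hg'⟩ := C.h.ex _ hloc
  refine ⟨g', C.h.inj ?_⟩
  rw [C.zsmul, hg', smul_smul]
  push_cast
  rw [mul_inv_cancel₀ hs0, one_smul]

/-- groups with coordinates are in the class -/
theorem Ctx.bg : (gops G).BG p θ :=
  ⟨fun s hs g => C.dvd hs g, fun _ _ hc k m g _ hg i => C.b1 hc k m g hg i,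
    fun _ _ hc g => C.ext hc g⟩

end

end Pool.Agent.H38.OG
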