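import Pool.Agent.H38.OG.Cor
import Pool.Agent.H38.OG.Rep3

set_option autoImplicit false

/-! Ordered groups with universe `ℕ`. -/

namespace Pool.Agent.H38.OG

open Sum

/-- structures with an order and an addition -/
abbrev Y : Type := (ℕ → ℕ → Bool) × (ℕ → ℕ → ℕ)

/-- the zero -/
noncomputable def zr (y : Y) : ℕ := sInf {z | y.2 z z = z}

/-- the negation -/
noncomputable def ng (y : Y) (m : ℕ) : ℕ := sInf {n | y.2 n m = zr y}

/-- natural multiples -/
noncomputable def ns (y : Y) : ℕ → ℕ → ℕ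
  | 0, _ => zr y
  | k + 1, m => y.2 (ns y k m) m

/-- integer multiples -/
noncomputable def zs (y : Y) : ℤ → ℕ → ℕ
  | .ofNat k, m => ns y k m
  | .negSucc k, m => ng y (ns y (k + 1) m)

/-- the operations -/
@[reducible] noncomputable def rops (y : Y) : Ops ℕ :=
  ⟨fun a b => y.1 a b = true, fun a b => y.2 a b, zr y, fun n a => zs y n a⟩

/-- the axioms of ordered abelian groups -/
structure OAx (y : Y) : Prop where
  assoc : ∀ a b c, y.2 (y.2 a b) c = y.2 a (y.2 b c)
  comm : ∀ a b, y.2 a b = y.2 b a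
  zero : ∀ a, y.2 (zr y) a = a
  neg : ∀ a, y.2 (ng y a) a = zr y
  lin : Lin (fun a b => y.1 a b = true)
  mono : ∀ a b c, y.1 a b = true → y.1 (y.2 a c) (y.2 b c) = true

/-- the universe -/
def Car (_ : Y) : Type := ℕ

/-- the group -/
@[reducible] noncomputable def grp (y : Y) (h : OAx y) : AddCommGroup (Car y) where
  add := fun a b => y.2 a b
  zero := zr y
  neg := ng y
  sub := fun a b => y.2 a (ng y b)
  nsmul := ns y
  zsmul := zs y
  add_assoc := h.assoc
  zero_add := h.zero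
  add_zero := fun a => (h.comm a (zr y)).trans (h.zero a)
  add_comm := h.comm
  neg_add_cancel := h.neg
  sub_eq_add_neg := fun _ _ => rfl
  nsmul_zero := fun _ => rfl
  nsmul_succ := fun _ _ => rfl
  zsmul_zero' := fun _ => rfl
  zsmul_succ' := fun _ _ => rfl
  zsmul_neg' := fun _ _ => rfl

/-- the order -/
@[reducible] noncomputable def ord (y : Y) (h : OAx y) : LinearOrder (Car y) :=
  letI : IsStrictTotalOrder ℕ (fun a b => y.1 a b = true) :=
    { trichotomous := fun a b h1 h2 => by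
        by_contra e
        rcases h.lin.total a b e with h3 | h3
        · exact h1 h3
        · exact h2 h3
      irrefl := h.lin.irrefl
      trans := h.lin.trans }
  linearOrderOfSTO (α := ℕ) (fun a b => y.1 a b = true)

theorem ordered (y : Y) (h : OAx y) : @IsOrderedAddMonoid (Car y)
    (grp y h).toAddCommMonoid (ord y h).toPreorder := by
  let _ := grp y h
  let _ := ord y h
  exact
    { add_le_add_left := fun a b hab c => by
        rcases hab with e | hab
        · exact Or.inl (by rw [e])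
        · exact Or.inr (h.mono a b c hab) }

variable {p : ℕ} [hp : Fact p.Prime] {θ : ℚ_[p]}

theorem bg_iff (y : Y) (h : OAx y) : (letI := grp y h; letI := ord y h; (gops (Car y)).BG p θ) ↔
    (rops y).BG p θ := Iff.rfl

/-- the coordinates of a structure -/
abbrev YRep (p : ℕ) [Fact p.Prime] (θ : ℚ_[p]) (x : Pr) (y : Y) (co : ℕ → (Ix →₀ ℚ)) : Prop :=
  IsRep p θ x (fun a b : ℕ => y.1 a b = true) (fun a b => y.2 a b) co

theorem loc_zero : Loc p θ 0 := fun n => by simp

theorem Loc.neg {v : Ix →₀ ℚ} (h : Loc p θ v) : Loc p θ (-v) := by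
  intro n
  have := h n
  rw [← norm_neg] at this
  refine le_of_eq_of_le (congrArg norm ?_) this
  simp only [Finsupp.neg_apply]
  push_cast
  ring

theorem Loc.add {v w : Ix →₀ ℚ} (h : Loc p θ v) (h' : Loc p θ w) : Loc p θ (v + w) := by
  intro n
  have h1 : (((v + w) (inl n) : ℚ) : ℚ_[p]) - θ * (((v + w) (inr n) : ℚ) : ℚ_[p]) =
      (((v (inl n) : ℚ) : ℚ_[p]) - θ * ((v (inr n) : ℚ) : ℚ_[p])) +
      (((w (inl n) : ℚ) : ℚ_[p]) - θ * ((w (inr n) : ℚ) : ℚ_[p])) := by
    simp only [Finsupp.add_apply]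
    push_cast
    ring
  rw [h1]
  exact (Padic.nonarchimedean _ _).trans (max_le (h n) (h' n))

/-- structures with coordinates are ordered groups -/
theorem YRep.ax {x : Pr} (hx : TL x) {y : Y} {co : ℕ → (Ix →₀ ℚ)} (h : YRep p θ x y co) :
    OAx y := by
  have hl := lin_lt hx
  have h0 : co (zr y) = 0 := by
    obtain ⟨z, hz⟩ := h.ex 0 loc_zero
    have : zr y ∈ {z | y.2 z z = z} := Nat.sInf_mem ⟨z, h.inj (by rw [h.add, hz, add_zero])⟩
    have h1 := congrArg co (this : y.2 (zr y) (zr y) = zr y)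
    rw [h.add] at h1
    exact left_eq_add.1 h1.symm
  have hn : ∀ a, co (ng y a) = - co a := by
    intro a
    obtain ⟨n, hn⟩ := h.ex _ (h.mem a).neg
    have : ng y a ∈ {n | y.2 n a = zr y} := Nat.sInf_mem ⟨n, h.inj (by
      rw [h.add, hn, neg_add_cancel, h0])⟩
    have h1 := congrArg co (this : y.2 (ng y a) a = zr y)
    rw [h.add, h0] at h1
    exact eq_neg_of_add_eq_zero_left h1
  refine ⟨fun a b c => h.inj ?_, fun a b => h.inj ?_, fun a => h.inj ?_, fun a => h.inj ?_,
    ⟨fun a ha => ?_, fun a b c hab hbc => ?_, fun a b hab => ?_⟩, fun a b c hab => ?_⟩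
  · rw [h.add, h.add, h.add, h.add, add_assoc]
  · rw [h.add, h.add, add_comm]
  · rw [h.add, h0, zero_add]
  · rw [h.add, hn, h0, neg_add_cancel]
  · have := (h.pos a a).1 ha
    rw [sub_self] at this
    exact this.ne rfl
  · have h1 := (h.pos _ _).1 hab
    have h2 := (h.pos _ _).1 hbc
    refine (h.pos a c).2 ?_
    have := h2.add hl h1
    rwa [sub_add_sub_cancel] at this
  · have : co b - co a ≠ 0 := fun e => hab (h.inj (sub_eq_zero.1 e).symm)
    rcases pos_or hl this with h1 | h1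
    · exact Or.inl ((h.pos _ _).2 h1)
    · rw [neg_sub] at h1
      exact Or.inr ((h.pos _ _).2 h1)
  · have h1 := (h.pos _ _).1 hab
    refine (h.pos _ _).2 ?_
    rw [h.add, h.add, add_sub_add_right_eq_sub]
    exact h1

theorem YRep.ctx (hθ : ‖θ‖ ≤ 1) (hi : ∀ r : ℚ, (r : ℚ_[p]) ≠ θ) {x : Pr} (hx : TL x) {y : Y}
    {co : ℕ → (Ix →₀ ℚ)} (h : YRep p θ x y co) (ha : OAx y) :
    @Ctx p _ θ x (Car y) (grp y ha) (ord y ha) (ordered y ha) co := by
  let _ := grp y ha
  let _ := ord y ha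
  have _ := ordered y ha
  exact ⟨hθ, hi, hx, h⟩

/-- structures with coordinates are in the class -/
theorem YRep.bg (hθ : ‖θ‖ ≤ 1) (hi : ∀ r : ℚ, (r : ℚ_[p]) ≠ θ) {x : Pr} (hx : TL x) {y : Y}
    {co : ℕ → (Ix →₀ ℚ)} (h : YRep p θ x y co) : (rops y).BG p θ := by
  have ha := h.ax hx
  let _ := grp y ha
  let _ := ord y ha
  have _ := ordered y ha
  exact (bg_iff y ha).1 (h.ctx hθ hi hx ha).bg

/-- the members of the class have coordinates -/
theorem exists_yrep (hθ : ‖θ‖ ≤ 1) {y : Y} (ha : OAx y) (hB : (rops y).BG p θ) :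
    ∃ (x : Pr) (co : ℕ → (Ix →₀ ℚ)), TL x ∧ YRep p θ x y co := by
  let _ := grp y ha
  let _ := ord y ha
  have _ := ordered y ha
  exact exists_rep (G := Car y) hθ ((bg_iff y ha).2 hB) (fun n => n) Function.surjective_id

/-- isomorphism -/
def YIso (y z : Y) : Prop := ∃ σ : Equiv.Perm ℕ,
  (∀ m n, z.1 (σ m) (σ n) = y.1 m n) ∧ ∀ m n, z.2 (σ m) (σ n) = σ (y.2 m n)

theorem YRep.iso {x : Pr} {y z : Y} {co co' : ℕ → (Ix →₀ ℚ)} (h : YRep p θ x y co)
    (h' : YRep p θ x z co') : YIso y z := by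
  have e1 : ∀ m, ∃ n, co' n = co m := fun m => h'.ex _ (h.mem m)
  have e2 : ∀ m, ∃ n, co n = co' m := fun m => h.ex _ (h'.mem m)
  choose f hf using e1
  choose g hg using e2
  let σ : Equiv.Perm ℕ := ⟨f, g, fun m => h.inj (by rw [hg, hf]), fun m => h'.inj (by rw [hf, hg])⟩
  have hσ : ∀ m, co' (σ m) = co m := hf
  refine ⟨σ, fun m n => ?_, fun m n => ?_⟩
  · rw [Bool.eq_iff_iff]
    have h1 := h'.pos (σ m) (σ n)
    have h2 := h.pos m n
    rw [hσ, hσ] at h1
    exact h1.trans h2.symm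
  · apply h'.inj
    have h1 := h'.add (σ m) (σ n)
    have h2 := h.add m n
    rw [hσ, hσ] at h1
    rw [hσ, h2]
    exact h1

theorem YRep.map {x : Pr} {y z : Y} {co : ℕ → (Ix →₀ ℚ)} (h : YRep p θ x y co) (hyz : YIso y z) :
    ∃ co', YRep p θ x z co' := by
  obtain ⟨σ, h1, h2⟩ := hyz
  have e1 : ∀ m n, z.1 m n = y.1 (σ.symm m) (σ.symm n) := fun m n => by
    rw [← h1, σ.apply_symm_apply, σ.apply_symm_apply]
  have e2 : ∀ m n, σ.symm (z.2 m n) = y.2 (σ.symm m) (σ.symm n) := fun m n => by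
    rw [σ.symm_apply_eq, ← h2, σ.apply_symm_apply, σ.apply_symm_apply]
  refine ⟨fun m => co (σ.symm m), fun a b => ?_, fun a b hab => ?_, fun a => h.mem _,
    fun v hv => ?_, fun a b => ?_⟩
  · rw [e2]
    exact h.add _ _
  · exact σ.symm.injective (h.inj hab)
  · obtain ⟨a, ha⟩ := h.ex v hv
    exact ⟨σ a, by rw [σ.symm_apply_apply]; exact ha⟩
  · rw [e1]
    exact h.pos _ _

theorem YIso.symm {y z : Y} (h : YIso y z) : YIso z y := by
  obtain ⟨σ, h1, h2⟩ := h
  refine ⟨σ.symm, fun m n => ?_, fun m n => ?_⟩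
  · rw [← h1, σ.apply_symm_apply, σ.apply_symm_apply]
  · rw [eq_comm, σ.symm_apply_eq, ← h2, σ.apply_symm_apply, σ.apply_symm_apply]

/-- every pair of linear orders has a group -/
theorem exists_y (hθ : ‖θ‖ ≤ 1) (x : Pr) : ∃ (y : Y) (co : ℕ → (Ix →₀ ℚ)), YRep p θ x y co := by
  classical
  have hinf : Infinite {v : Ix →₀ ℚ // Loc p θ v} := by
    have hl : ∀ n, Loc p θ (Finsupp.single (inr n) 1) := by
      intro n m
      by_cases e : n = m
      · subst e
        rw [Finsupp.single_eq_same, Finsupp.single_apply, if_neg (by simp)]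
        simpa using hθ
      · rw [Finsupp.single_apply, if_neg (by simp), Finsupp.single_apply,
          if_neg (by simpa using e)]
        simp
    refine Infinite.of_injective (fun n : ℕ => (⟨Finsupp.single (inr n) 1, hl n⟩ :
      {v : Ix →₀ ℚ // Loc p θ v})) fun m n hmn => ?_
    have h1 := congrArg (fun v : {v : Ix →₀ ℚ // Loc p θ v} => v.1) hmn
    exact Sum.inr.inj (Finsupp.single_left_injective one_ne_zero h1)
  have hc : Countable {v : Ix →₀ ℚ // Loc p θ v} := inferInstance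
  obtain ⟨e⟩ := nonempty_equiv_of_countable (α := ℕ) (β := {v : Ix →₀ ℚ // Loc p θ v})
  refine ⟨(fun a b => decide (Pos (lt x) ((e b).1 - (e a).1)),
    fun a b => e.symm ⟨(e a).1 + (e b).1, (e a).2.add (e b).2⟩), fun a => (e a).1,
    fun a b => ?_, fun a b hab => ?_, fun a => (e a).2, fun v hv => ?_, fun a b => ?_⟩
  · rw [e.apply_symm_apply]
  · exact e.injective (Subtype.ext hab)
  · exact ⟨e.symm ⟨v, hv⟩, by rw [e.apply_symm_apply]⟩
  · exact decide_eq_true_iff

/-- isomorphic pairs have the same groups -/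
theorem YRep.perm {x x' : Pr} {y : Y} {co : ℕ → (Ix →₀ ℚ)} (h : YRep p θ x y co)
    (π : Equiv.Perm ℕ) (hπ : ∀ m n, x'.1 (π m) (π n) = x.1 m n ∧ x'.2 (π m) (π n) = x.2 m n) :
    ∃ co', YRep p θ x' y co' := by
  let ρ : Ix ≃ Ix := Equiv.sumCongr π π
  have hρl : ∀ n, ρ.symm (inl n) = inl (π.symm n) := fun n => rfl
  have hρr : ∀ n, ρ.symm (inr n) = inr (π.symm n) := fun n => rfl
  have hlt : ∀ i j, lt x' (ρ i) (ρ j) ↔ lt x i j := by
    rintro (i | i) (j | j)
    · show x'.1 (π i) (π j) = true ↔ x.1 i j = true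
      rw [(hπ i j).1]
    · exact Iff.rfl
    · exact Iff.rfl
    · show x'.2 (π i) (π j) = true ↔ x.2 i j = true
      rw [(hπ i j).2]
  have hloc : ∀ v, Loc p θ v ↔ Loc p θ (v.equivMapDomain ρ) := by
    intro v
    constructor
    · intro hv n
      rw [Finsupp.equivMapDomain_apply, Finsupp.equivMapDomain_apply, hρl, hρr]
      exact hv _
    · intro hv n
      have := hv (π n)
      rwa [Finsupp.equivMapDomain_apply, Finsupp.equivMapDomain_apply, hρl, hρr,
        π.symm_apply_apply] at this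
  have hpos : ∀ v, Pos (lt x) v ↔ Pos (lt x') (v.equivMapDomain ρ) := by
    intro v
    constructor
    · rintro ⟨i, ⟨h1, h2⟩, h3⟩
      refine ⟨ρ i, ⟨?_, fun j hj => ?_⟩, ?_⟩
      · rw [Finsupp.equivMapDomain_apply, ρ.symm_apply_apply]; exact h1
      · rw [Finsupp.equivMapDomain_apply]
        refine h2 _ ?_
        rw [← hlt, ρ.apply_symm_apply]
        exact hj
      · rw [Finsupp.equivMapDomain_apply, ρ.symm_apply_apply]; exact h3
    · rintro ⟨i, ⟨h1, h2⟩, h3⟩
      rw [Finsupp.equivMapDomain_apply] at h1 h3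
      refine ⟨ρ.symm i, ⟨h1, fun j hj => ?_⟩, h3⟩
      have := h2 (ρ j) (by
        rw [← ρ.apply_symm_apply i, hlt]
        exact hj)
      rwa [Finsupp.equivMapDomain_apply, ρ.symm_apply_apply] at this
  have hadd : ∀ v w : Ix →₀ ℚ, (v + w).equivMapDomain ρ =
      v.equivMapDomain ρ + w.equivMapDomain ρ := fun v w => by
    ext i
    simp [Finsupp.equivMapDomain_apply]
  have hsub : ∀ v w : Ix →₀ ℚ, (v - w).equivMapDomain ρ =
      v.equivMapDomain ρ - w.equivMapDomain ρ := fun v w => by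
    ext i
    simp [Finsupp.equivMapDomain_apply]
  refine ⟨fun a => (co a).equivMapDomain ρ, fun a b => ?_, fun a b hab => ?_, fun a =>
    (hloc _).1 (h.mem a), fun v hv => ?_, fun a b => ?_⟩
  · rw [h.add, hadd]
  · apply h.inj
    have := congrArg (fun v : Ix →₀ ℚ => v.equivMapDomain ρ.symm) hab
    ext i
    have h1 := DFunLike.congr_fun hab (ρ i)
    rwa [Finsupp.equivMapDomain_apply, Finsupp.equivMapDomain_apply, ρ.symm_apply_apply] at h1
  · have h1 : (v.equivMapDomain ρ.symm).equivMapDomain ρ = v := by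
      ext i
      rw [Finsupp.equivMapDomain_apply, Finsupp.equivMapDomain_apply]
      simp
    obtain ⟨a, ha⟩ := h.ex (v.equivMapDomain ρ.symm) ((hloc _).2 (by rw [h1]; exact hv))
    exact ⟨a, by rw [ha, h1]⟩
  · rw [← hsub, ← hpos]
    exact h.pos a b

end Pool.Agent.H38.OG
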